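import Pool.Agent.OMG.Tay

/-!
# PWV / Low: the coefficients of a function with exactly one pole in a disc are large

PROOF. `G(z) = (z-p)^m H(z)` (`g` near `p`) is differentiable on the ball, `G(p) = g(p)`. With `a = c - p`, `T c G = (C a - X)^m T c H`
(`T_mul`, `T_sub`). If `F = (C a - X)^(m-1) T c H` then `sum_(j <= k) G_j a^j = a^(k+1) F_k` (telescoping), so
`a^(k+1) F_k -> g(p)` (`T_hasSum` at `p`). If `|H_j| <= eta d^(-j)` for all `j` in `[k, k+m]`, `d = |a|`, then by
induction on `n` the coefficients of `(C a - X)^n T c H` at `j` in `[k+n, k+m]` are at most `(2d)^n eta d^(-j)`; contradiction for small `eta`.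
-/

set_option autoImplicit false

open Complex Finset Filter Topology MeasureTheory

namespace Pool.PWV

open Pool.OMG

theorem low_step (a : ℂ) (P : PowerSeries ℂ) (j : ℕ) :
    PowerSeries.coeff (j + 1) ((PowerSeries.C a - PowerSeries.X) * P) =
      a * PowerSeries.coeff (j + 1) P - PowerSeries.coeff j P := by
  rw [sub_mul, map_sub, PowerSeries.coeff_C_mul, PowerSeries.coeff_succ_X_mul]

theorem low_step0 (a : ℂ) (P : PowerSeries ℂ) :
    PowerSeries.coeff 0 ((PowerSeries.C a - PowerSeries.X) * P) =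
      a * PowerSeries.coeff 0 P := by
  rw [sub_mul, map_sub, PowerSeries.coeff_C_mul, PowerSeries.coeff_zero_X_mul, sub_zero]

theorem low_tel (a : ℂ) (P : PowerSeries ℂ) (k : ℕ) :
    ∑ j ∈ range (k + 1), PowerSeries.coeff j ((PowerSeries.C a - PowerSeries.X) * P) * a ^ j =
      a ^ (k + 1) * PowerSeries.coeff k P := by
  induction k with
  | zero =>
    rw [zero_add, Finset.sum_range_one, low_step0]
    ring
  | succ k ih =>
    rw [Finset.sum_range_succ, ih, low_step]
    ring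

theorem low_bd {a : ℂ} {P : PowerSeries ℂ} {η d : ℝ} (hd : ‖a‖ = d) (hd0 : 0 < d) {k m : ℕ}
    (h : ∀ j, k ≤ j → j ≤ k + m → ‖PowerSeries.coeff j P‖ ≤ η * (1 / d) ^ j) (n : ℕ) :
    ∀ j, k + n ≤ j → j ≤ k + m →
      ‖PowerSeries.coeff j ((PowerSeries.C a - PowerSeries.X) ^ n * P)‖ ≤
        (2 * d) ^ n * (η * (1 / d) ^ j) := by
  induction n with
  | zero =>
    intro j h1 h2
    simpa using h j (by omega) h2
  | succ n ih =>
    intro j h1 h2
    obtain ⟨i, rfl⟩ : ∃ i, j = i + 1 := ⟨j - 1, by omega⟩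
    rw [pow_succ', mul_assoc, low_step]
    have e1 := ih (i + 1) (by omega) h2
    have e2 := ih i (by omega) (by omega)
    have e3 : (1 / d) ^ i = d * (1 / d) ^ (i + 1) := by
      rw [pow_succ]
      field_simp
    rw [e3] at e2
    refine (norm_sub_le _ _).trans ?_
    rw [norm_mul, hd]
    calc d * ‖PowerSeries.coeff (i + 1) ((PowerSeries.C a - PowerSeries.X) ^ n * P)‖ +
          ‖PowerSeries.coeff i ((PowerSeries.C a - PowerSeries.X) ^ n * P)‖
        ≤ d * ((2 * d) ^ n * (η * (1 / d) ^ (i + 1))) +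
          (2 * d) ^ n * (η * (d * (1 / d) ^ (i + 1))) :=
          add_le_add (mul_le_mul_of_nonneg_left e1 hd0.le) e2
      _ = (2 * d) ^ (n + 1) * (η * (1 / d) ^ (i + 1)) := by
          rw [pow_succ (2 * d)]
          ring

theorem low_T {c p : ℂ} {H : ℂ → ℂ} (hH : AnalyticAt ℂ H c) (m : ℕ) :
    T c (fun s => (s - p) ^ m * H s) =
      (PowerSeries.C (c - p) - PowerSeries.X) ^ m * T c H := by
  induction m with
  | zero => simp
  | succ m ih =>
    have e : (fun s : ℂ => (s - p) ^ (m + 1) * H s) =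
        fun s => (s - p) * ((s - p) ^ m * H s) := by
      funext s
      ring
    have h1 : AnalyticAt ℂ (fun s : ℂ => s - p) c := analyticAt_id.sub analyticAt_const
    have h2 : AnalyticAt ℂ (fun s : ℂ => (s - p) ^ m * H s) c := (h1.pow m).mul hH
    rw [e, T_mul h1 h2, T_sub, ih, pow_succ']
    ring

theorem low {H g : ℂ → ℂ} {c p : ℂ} {R : ℝ} {m : ℕ} (hcp : c ≠ p) (hR : ‖c - p‖ < R)
    (hH : DifferentiableOn ℂ H (Metric.ball c R \ {p})) (hm : 1 ≤ m) (hg : AnalyticAt ℂ g p)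
    (hg0 : g p ≠ 0) (hHg : ∀ᶠ z in 𝓝[≠] p, H z = g z / (z - p) ^ m) :
    ∃ (c₀ : ℝ) (k0 : ℕ), 0 < c₀ ∧ ∀ k : ℕ, k0 ≤ k → ∃ i : ℕ, i ≤ m ∧
      c₀ * (1 / ‖c - p‖) ^ (k + i) ≤ ‖PowerSeries.coeff (k + i) (T c H)‖ := by
  classical
  have ha0 : c - p ≠ 0 := sub_ne_zero.2 hcp
  set a : ℂ := c - p with ha
  set d : ℝ := ‖a‖ with hd
  have hd0 : 0 < d := norm_pos_iff.2 ha0
  have hgp : 0 < ‖g p‖ := norm_pos_iff.2 hg0
  have hopen : IsOpen (Metric.ball c R \ {p}) := Metric.isOpen_ball.sdiff isClosed_singleton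
  -- the function `G`
  let G : ℂ → ℂ := fun z => if z = p then g p else (z - p) ^ m * H z
  have hGne : ∀ z, z ≠ p → G =ᶠ[𝓝 z] fun s => (s - p) ^ m * H s := by
    intro z hz
    filter_upwards [isOpen_ne.mem_nhds hz] with s hs
    exact if_neg hs
  have hGp : G =ᶠ[𝓝 p] g := by
    have h1 : ∀ᶠ z in 𝓝 p, z ∈ ({p}ᶜ : Set ℂ) → H z = g z / (z - p) ^ m :=
      eventually_nhdsWithin_iff.1 hHg
    filter_upwards [h1] with z hz
    by_cases h2 : z = p
    · subst h2
      exact if_pos rfl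
    · have h3 := hz h2
      have h4 : (z - p) ^ m ≠ 0 := pow_ne_zero _ (sub_ne_zero.2 h2)
      change (if z = p then g p else (z - p) ^ m * H z) = g z
      rw [if_neg h2, h3]
      field_simp
  have hGd : DifferentiableOn ℂ G (Metric.ball c R) := by
    intro z hz
    apply DifferentiableAt.differentiableWithinAt
    by_cases h2 : z = p
    · subst h2
      exact hGp.differentiableAt_iff.2 hg.differentiableAt
    · have h3 : DifferentiableAt ℂ H z :=
        (hH z ⟨hz, h2⟩).differentiableAt (hopen.mem_nhds ⟨hz, h2⟩)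
      refine (hGne z h2).differentiableAt_iff.2 ?_
      exact (((differentiableAt_id).sub_const p).pow m).mul h3
  have hcR : c ∈ Metric.ball c R := by
    rw [Metric.mem_ball, dist_self]
    exact hd0.trans hR
  have hHc : AnalyticAt ℂ H c :=
    hH.analyticAt (hopen.mem_nhds ⟨hcR, hcp⟩)
  have hTG : T c G = (PowerSeries.C a - PowerSeries.X) ^ m * T c H := by
    rw [T_congr (hGne c hcp), low_T hHc]
  have hpR : p ∈ Metric.ball c R := by
    rw [Metric.mem_ball, dist_comm, dist_eq_norm]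
    exact hR
  have hsum := T_hasSum hGd hpR
  have hGpp : G p = g p := if_pos rfl
  rw [hGpp] at hsum
  have ht := hsum.tendsto_sum_nat.comp (tendsto_add_atTop_nat 1)
  obtain ⟨n, rfl⟩ : ∃ n, m = n + 1 := ⟨m - 1, by omega⟩
  set F : PowerSeries ℂ := (PowerSeries.C a - PowerSeries.X) ^ n * T c H with hF
  have hTF : T c G = (PowerSeries.C a - PowerSeries.X) * F := by
    rw [hTG, hF, pow_succ']
    ring
  have ht2 : Tendsto (fun k : ℕ => a ^ (k + 1) * PowerSeries.coeff k F) atTop (𝓝 (g p)) := by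
    refine ht.congr fun k => ?_
    change ∑ j ∈ range (k + 1), PowerSeries.coeff j (T c G) * (c - p) ^ j = _
    rw [hTF, ← ha, low_tel]
  have ht3 := ht2.norm
  have ht4 : ∀ᶠ k : ℕ in atTop, ‖g p‖ / 2 < ‖a ^ (k + 1) * PowerSeries.coeff k F‖ :=
    ht3.eventually_const_lt (by linarith)
  obtain ⟨K, hK⟩ := eventually_atTop.1 ht4
  refine ⟨‖g p‖ / (4 * d * (2 * d) ^ n), K, by positivity, ?_⟩
  intro k hk
  by_contra hcon
  push Not at hcon
  have hb := low_bd (a := a) (P := T c H) (η := ‖g p‖ / (4 * d * (2 * d) ^ n)) (d := d) rfl hd0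
    (k := k) (m := n + 1) (by
      intro j h1 h2
      obtain ⟨i, rfl⟩ : ∃ i, j = k + i := ⟨j - k, by omega⟩
      exact (hcon i (by omega)).le) n (k + n) le_rfl (by omega)
  have hK2 := hK (k + n) (by omega)
  rw [norm_mul, norm_pow] at hK2
  have h5 : ‖a‖ ^ (k + n + 1) * ‖PowerSeries.coeff (k + n) F‖ ≤ ‖g p‖ / 4 := by
    calc ‖a‖ ^ (k + n + 1) * ‖PowerSeries.coeff (k + n) F‖ ≤
        d ^ (k + n + 1) * ((2 * d) ^ n *
          (‖g p‖ / (4 * d * (2 * d) ^ n) * (1 / d) ^ (k + n))) :=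
          mul_le_mul_of_nonneg_left hb (by positivity)
      _ = ‖g p‖ / 4 := by
          rw [pow_succ d, one_div, inv_pow]
          field_simp
  linarith

end Pool.PWV
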