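import Pool.Agent.PWV.Pol
import Pool.Agent.PWV.Low

/-!
# PWV / Alt: the alternative for the coefficients
-/

set_option autoImplicit false

open Complex Finset Filter Topology MeasureTheory

namespace Pool.PWV

open Pool.PWF Pool.OMG

private theorem gap {F : Set ℂ} (hF : F.Finite) {f : ℂ → ℝ} {d : ℝ} (h : ∀ q ∈ F, d < f q) :
    ∃ R : ℝ, d < R ∧ R ≤ d + 1 ∧ ∀ q ∈ F, R ≤ f q := by
  rcases F.eq_empty_or_nonempty with he | hne
  · exact ⟨d + 1, by linarith, le_rfl, fun q hq => by rw [he] at hq; exact absurd hq (by simp)⟩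
  · obtain ⟨q0, hq0, hmin⟩ := Set.exists_min_image F f hF hne
    exact ⟨min (d + 1) (f q0), lt_min (by linarith) (h q0 hq0), min_le_left _ _,
      fun q hq => (min_le_right _ _).trans (hmin q hq)⟩

private theorem nsq (z w : ℂ) : ‖z - w‖ ^ 2 = (z.re - w.re) ^ 2 + (z.im - w.im) ^ 2 := by
  rw [Complex.sq_norm, Complex.normSq_apply]
  simp only [Complex.sub_re, Complex.sub_im]
  ring

private theorem T_half {c : ℂ} (hc : 1 / 2 < c.re) {K : ℂ → ℂ}
    (h : ∀ z : ℂ, 1 / 2 < z.re → Hf z = K z) : T c Hf = T c K := by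
  apply T_congr
  have hopen2 : {s : ℂ | 1 / 2 < s.re} ∈ 𝓝 c :=
    (isOpen_lt continuous_const Complex.continuous_re).mem_nhds hc
  filter_upwards [hopen2] with z hz
  exact h z hz

/-- distances from the centre `c` -/
private theorem key1 {s δ a pr b x y t : ℝ} (ha : a = s - pr) (ha0 : 0 < a)
    (haδ : 2 * a * δ ≤ 1 / 2) (ht : t = b * (1 - 2 * a * δ))
    (hq : x - δ * y ^ 2 ≤ pr - δ * b ^ 2) :
    (s - pr) ^ 2 + (t - b) ^ 2 + 1 / 2 * ((pr - x) ^ 2 + (b - y) ^ 2) ≤
      (s - x) ^ 2 + (t - y) ^ 2 := by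
  have h1 : 2 * a * (δ * (b ^ 2 - y ^ 2)) ≤ 2 * a * (pr - x) :=
    mul_le_mul_of_nonneg_left (by linarith) (by linarith)
  have h2 : 2 * a * δ * (b - y) ^ 2 ≤ 1 / 2 * (b - y) ^ 2 :=
    mul_le_mul_of_nonneg_right haδ (sq_nonneg _)
  have h3 : s - x = a + (pr - x) := by rw [ha]; ring
  rw [h3, ← ha, ht]
  nlinarith [sq_nonneg (pr - x)]

/-- distances from `s` -/
private theorem key2 {s δ a pr b x y t : ℝ} (ha : a = s - pr) (ha0 : 0 < a) (hδ0 : 0 < δ)
    (haδ : 2 * a * δ ≤ 1 / 2) (ht : t = b * (1 - 2 * a * δ))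
    (hq : x - δ * y ^ 2 ≤ pr - δ * b ^ 2) :
    (s - pr) ^ 2 + (t - b) ^ 2 + a * δ * b ^ 2 ≤ (s - x) ^ 2 + y ^ 2 := by
  have h1 : 2 * a * (δ * (b ^ 2 - y ^ 2)) ≤ 2 * a * (pr - x) :=
    mul_le_mul_of_nonneg_left (by linarith) (by linarith)
  have h2 : 2 * a * δ * y ^ 2 ≤ 1 / 2 * y ^ 2 :=
    mul_le_mul_of_nonneg_right haδ (sq_nonneg _)
  have h3 : s - x = a + (pr - x) := by rw [ha]; ring
  have h4 : 2 * a * δ * (2 * a * δ * b ^ 2) ≤ 1 / 2 * (2 * a * δ * b ^ 2) :=
    mul_le_mul_of_nonneg_right haδ (by positivity)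
  rw [h3, ← ha, ht]
  nlinarith [sq_nonneg (pr - x), sq_nonneg y]

theorem alt (s : ℝ) (hs : 2 ≤ s) :
    (∃ q C : ℝ, s < q ∧
      ∀ k : ℕ, ‖PowerSeries.coeff k (T (s : ℂ) Hf) - (-1 / 2) * (1 / (s : ℂ)) ^ (k + 1)‖ ≤
        C * (1 / q) ^ k) ∨
    (∃ (t d q C c₀ : ℝ) (m k0 : ℕ), 0 < d ∧ d < q ∧ d < s ∧ 0 < c₀ ∧
      (∀ k : ℕ, ‖PowerSeries.coeff k (T (s : ℂ) Hf)‖ ≤ C * (1 / q) ^ k) ∧
      ∀ k : ℕ, k0 ≤ k → ∃ i : ℕ, i ≤ m ∧
        c₀ * (1 / d) ^ (k + i) ≤ ‖PowerSeries.coeff (k + i) (T ((s : ℂ) + t * I) Hf)‖) := by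
  obtain ⟨K₀, hK₀, hHf, hpole⟩ := hext
  have hs0 : 0 < s := by linarith
  set δ : ℝ := 1 / (4 * s) with hδ
  have hδ0 : 0 < δ := by positivity
  have hsδ : s * δ = 1 / 4 := by rw [hδ]; field_simp
  set S : Set ℂ := Pset ∩ {z | 0 ≤ phi δ z} with hSdef
  have hsre : 1 / 2 < (s : ℂ).re := by rw [Complex.ofReal_re]; linarith
  have hSfin : S.Finite := by
    refine (P_fin (isCompact_closedBall (0 : ℂ) (s + 1))).subset ?_
    rintro z ⟨hz1, hz2⟩
    refine ⟨hz1, ?_⟩
    have h1 := P_re hz1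
    have h2 : 0 ≤ z.re - δ * z.im ^ 2 := hz2
    rw [Metric.mem_closedBall, dist_eq_norm]
    apply le_of_sq_le_sq _ (by linarith)
    rw [nsq]
    simp only [Complex.zero_re, Complex.zero_im, sub_zero]
    have h3 : 0 ≤ δ * z.im ^ 2 := by positivity
    have h4 : s * (δ * z.im ^ 2) ≤ s * (1 / 6) := mul_le_mul_of_nonneg_left (by linarith) hs0.le
    rw [← mul_assoc, hsδ] at h4
    have h5 : z.re ^ 2 ≤ 1 := by nlinarith
    nlinarith
  rcases S.eq_empty_or_nonempty with hS | hS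
  · left
    have hneg : ∀ q ∈ Pset, s < ‖(s : ℂ) - q‖ := by
      intro q hq
      have h1 : phi δ q < 0 := by
        by_contra h
        push Not at h
        have : q ∈ S := ⟨hq, h⟩
        rw [hS] at this
        exact this
      unfold phi at h1
      apply lt_of_pow_lt_pow_left₀ 2 (norm_nonneg _)
      rw [nsq]
      simp only [Complex.ofReal_re, Complex.ofReal_im, zero_sub, neg_sq]
      have h2 : s * q.re < s * (δ * q.im ^ 2) := mul_lt_mul_of_pos_left (by linarith) hs0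
      rw [← mul_assoc, hsδ] at h2
      nlinarith [sq_nonneg q.re, sq_nonneg q.im]
    obtain ⟨R, hR1, hR2, hR3⟩ := gap (F := Pset ∩ Metric.closedBall (s : ℂ) (s + 1))
      (P_fin (isCompact_closedBall _ _)) (f := fun q => ‖(s : ℂ) - q‖) (d := s)
      (fun q hq => hneg q hq.1)
    have hball : Metric.ball (s : ℂ) R ⊆ Psetᶜ := by
      intro z hz hzP
      rw [Metric.mem_ball, dist_comm, dist_eq_norm] at hz
      have := hR3 z ⟨hzP, by
        rw [Metric.mem_closedBall, dist_comm, dist_eq_norm]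
        linarith⟩
      linarith
    obtain ⟨C, hC⟩ := T_bound (q := (s + R) / 2) (hK₀.mono hball) (by linarith) (by linarith)
    refine ⟨(s + R) / 2, C, by linarith, fun k => ?_⟩
    have hT : T (s : ℂ) Hf = T (s : ℂ) (fun z => K₀ z + (-1 / 2 : ℂ) / (z - 0)) :=
      T_half hsre hHf
    have hadd : T (s : ℂ) (fun z => K₀ z + (-1 / 2 : ℂ) / (z - 0)) =
        T (s : ℂ) K₀ + T (s : ℂ) (fun z => (-1 / 2 : ℂ) / (z - 0)) := by
      apply T_add
      · exact (hK₀.mono hball).analyticAt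
          (Metric.isOpen_ball.mem_nhds (Metric.mem_ball_self (by linarith)))
      · have hne : (s : ℂ) - 0 ≠ 0 := by
          rw [sub_zero]
          exact_mod_cast hs0.ne'
        exact analyticAt_const.div (by fun_prop) hne
    have hsne : (s : ℂ) ≠ 0 := by exact_mod_cast hs0.ne'
    rw [hT, hadd, map_add, T_inv hsne, sub_zero, add_sub_cancel_right]
    exact hC k
  · right
    obtain ⟨p, hpS, hpmax⟩ := Set.exists_max_image S (phi δ) hSfin hS
    have hpP : p ∈ Pset := hpS.1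
    have hp0 : 0 ≤ phi δ p := hpS.2
    have hmax : ∀ q ∈ insert 0 Pset, q.re - δ * q.im ^ 2 ≤ p.re - δ * p.im ^ 2 := by
      intro q hq
      rcases hq with hq | hq
      · rw [hq]
        simp only [Complex.zero_re, Complex.zero_im]
        have : 0 ≤ p.re - δ * p.im ^ 2 := hp0
        linarith
      · by_cases h : 0 ≤ phi δ q
        · exact hpmax q ⟨hq, h⟩
        · push Not at h
          exact (h.le.trans hp0)
    have hb : p.im ≠ 0 := by
      intro h
      have h1 := P_real hpP h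
      have h2 : 0 ≤ p.re - δ * p.im ^ 2 := hp0
      rw [h] at h2
      linarith
    have hpre := P_re hpP
    have hb2 : 0 < p.im ^ 2 := by positivity
    have hpre0 : 0 < p.re := by
      have h2 : 0 ≤ p.re - δ * p.im ^ 2 := hp0
      have h3 : 0 < δ * p.im ^ 2 := by positivity
      linarith
    have hpne : p ≠ 0 := by
      intro h
      rw [h] at hpre0
      simp at hpre0
    obtain ⟨a, ha⟩ : ∃ a : ℝ, a = s - p.re := ⟨_, rfl⟩
    have ha0 : 0 < a := by rw [ha]; linarith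
    have has : a < s := by rw [ha]; linarith
    have haδ : 2 * a * δ ≤ 1 / 2 := by
      have := mul_lt_mul_of_pos_right has hδ0
      linarith
    obtain ⟨t, ht⟩ : ∃ t : ℝ, t = p.im * (1 - 2 * a * δ) := ⟨_, rfl⟩
    set c : ℂ := (s : ℂ) + t * I with hc
    have hcre : c.re = s := by rw [hc]; simp
    have hcim : c.im = t := by rw [hc]; simp
    set d : ℝ := ‖c - p‖ with hd
    have hdsq : d ^ 2 = (s - p.re) ^ 2 + (t - p.im) ^ 2 := by
      rw [hd, nsq, hcre, hcim]
    have hd0 : 0 < d := by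
      rw [hd]
      apply norm_pos_iff.2
      intro h
      have h1 : (c - p).re = 0 := by rw [h]; simp
      rw [Complex.sub_re, hcre] at h1
      linarith
    -- the centre `c`
    have hkc : ∀ q ∈ insert 0 Pset, q ≠ p → d < ‖c - q‖ := by
      intro q hq hqp
      apply lt_of_pow_lt_pow_left₀ 2 (norm_nonneg _)
      have h1 := key1 ha ha0 haδ ht (hmax q hq)
      have h2 : 0 < ‖p - q‖ ^ 2 := by
        have : 0 < ‖p - q‖ := norm_pos_iff.2 (sub_ne_zero.2 hqp.symm)
        positivity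
      rw [nsq] at h2
      rw [hdsq, nsq, hcre, hcim]
      linarith
    have hkfin : (insert 0 (Pset ∩ Metric.closedBall c (d + 1)) \ {p}).Finite :=
      ((P_fin (isCompact_closedBall _ _)).insert 0).sdiff
    obtain ⟨R, hR1, hR2, hR3⟩ := gap hkfin (f := fun q => ‖c - q‖) (d := d) (by
      rintro q ⟨hq1, hq2⟩
      have hq2' : q ≠ p := hq2
      rcases hq1 with hq1 | hq1
      · exact hkc q (Or.inl hq1) hq2'
      · exact hkc q (Or.inr hq1.1) hq2')
    set K : ℂ → ℂ := fun z => K₀ z + (-1 / 2 : ℂ) / (z - 0) with hK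
    have hKd : DifferentiableOn ℂ K (insert 0 Pset)ᶜ := by
      intro z hz
      rw [Set.mem_compl_iff, Set.mem_insert_iff, not_or] at hz
      have h1 : DifferentiableAt ℂ K₀ z := hK₀.differentiableAt (P_closed.isOpen_compl.mem_nhds hz.2)
      have h2 : DifferentiableAt ℂ (fun z : ℂ => z - 0) z := by fun_prop
      exact (h1.add ((differentiableAt_const _).div h2 (by rw [sub_zero]; exact
        hz.1))).differentiableWithinAt
    have hballc : Metric.ball c R \ {p} ⊆ (insert 0 Pset)ᶜ := by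
      rintro z ⟨hz1, hz2⟩ hz3
      rw [Metric.mem_ball, dist_comm, dist_eq_norm] at hz1
      have h1 : z ∈ insert 0 (Pset ∩ Metric.closedBall c (d + 1)) \ {p} := by
        refine ⟨?_, hz2⟩
        rcases hz3 with hz3 | hz3
        · exact Or.inl hz3
        · refine Or.inr ⟨hz3, ?_⟩
          rw [Metric.mem_closedBall, dist_comm, dist_eq_norm]
          linarith
      have := hR3 z h1
      linarith
    obtain ⟨m, g, hm, hga, hg0, hg⟩ := hpole p hpP
    have hcp : c ≠ p := by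
      intro h
      rw [hd, h, sub_self, norm_zero] at hd0
      exact lt_irrefl _ hd0
    obtain ⟨c₀, k0, hc0, hlow⟩ := low (R := R) hcp hR1 (hKd.mono hballc) hm hga hg0 hg
    -- the centre `s`
    have hγ : 0 < a * δ * p.im ^ 2 := by positivity
    have hks : ∀ q ∈ insert 0 Pset, d ^ 2 + a * δ * p.im ^ 2 ≤ ‖(s : ℂ) - q‖ ^ 2 := by
      intro q hq
      have h1 := key2 ha ha0 hδ0 haδ ht (hmax q hq)
      rw [hdsq, nsq]
      simp only [Complex.ofReal_re, Complex.ofReal_im, zero_sub, neg_sq]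
      linarith
    set R2 : ℝ := √(d ^ 2 + a * δ * p.im ^ 2) with hR2def
    have hR2sq : R2 ^ 2 = d ^ 2 + a * δ * p.im ^ 2 := Real.sq_sqrt (by positivity)
    have hR20 : 0 ≤ R2 := Real.sqrt_nonneg _
    have hdR2 : d < R2 := by
      apply lt_of_pow_lt_pow_left₀ 2 hR20
      rw [hR2sq]
      linarith
    have hballs : Metric.ball (s : ℂ) R2 ⊆ (insert 0 Pset)ᶜ := by
      intro z hz hz3
      rw [Metric.mem_ball, dist_comm, dist_eq_norm] at hz
      have h1 := hks z hz3
      rw [← hR2sq] at h1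
      have h2 := le_of_sq_le_sq h1 (norm_nonneg _)
      linarith
    obtain ⟨C, hC⟩ := T_bound (q := (d + R2) / 2) (hKd.mono hballs) (by linarith) (by linarith)
    have hds : d < s := by
      have h1 := hks 0 (Or.inl rfl)
      rw [sub_zero, Complex.norm_real, Real.norm_of_nonneg hs0.le] at h1
      apply lt_of_pow_lt_pow_left₀ 2 hs0.le
      linarith
    refine ⟨t, d, (d + R2) / 2, C, c₀, m, k0, hd0, by linarith, hds, hc0, ?_, ?_⟩
    · intro k
      rw [T_half hsre hHf]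
      exact hC k
    · intro k hk
      obtain ⟨i, hi, h⟩ := hlow k hk
      refine ⟨i, hi, ?_⟩
      rw [← hc, T_half (by rw [hcre]; linarith) hHf]
      exact h

end Pool.PWV
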