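import Pool.Agent.Helper76.PWF.Crit

/-!
# PWV / Cn: the coefficients at a complex centre are bounded by the mean of |f| at the real part

As `jc_eq` (PWF/Lap) with the complex weight `exp(-i t y)`: the coefficient at `s + i t` is
`int_0^oo E(e^y) exp(-(s+it) y) y^k / k! dy` (`T_unique`).
-/

set_option autoImplicit false

open Complex Finset Filter Topology MeasureTheory

namespace Pool.PWV

open Pool.PWF Pool.OMG

private theorem unit_norm (t y : ℝ) : ‖Complex.exp (-((t : ℂ) * I) * y)‖ = 1 := by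
  rw [Complex.norm_exp]
  have : (-((t : ℂ) * I) * y).re = 0 := by simp
  rw [this, Real.exp_zero]

private theorem term_int {a : ℝ → ℝ} (ha : Measurable a) {C r : ℝ}
    (hb : ∀ y : ℝ, 0 ≤ y → |a y| ≤ C * Real.exp (r * y)) {s0 : ℝ} (h : r < s0) (t : ℝ) (k : ℕ) :
    IntegrableOn (fun y : ℝ => ((a y * Real.exp (-s0 * y) * y ^ k / (k.factorial : ℝ) : ℝ) : ℂ) *
      Complex.exp (-((t : ℂ) * I) * y)) (Set.Ioi 0) := by
  have h1 := jc_integrable ha hb h k
  refine Integrable.mono' h1.norm ?_ (Filter.Eventually.of_forall fun y => ?_)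
  · refine (h1.ofReal (𝕜 := ℂ)).aestronglyMeasurable.mul ?_
    exact (by fun_prop : Continuous fun y : ℝ => Complex.exp (-((t : ℂ) * I) * y)).aestronglyMeasurable
  · rw [norm_mul, unit_norm, mul_one, Complex.norm_real]

private theorem norm_term {a : ℝ → ℝ} (s0 t : ℝ) (u : ℂ) (k : ℕ) (y : ℝ) (hy : 0 < y) :
    ‖((a y * Real.exp (-s0 * y) * y ^ k / (k.factorial : ℝ) : ℝ) : ℂ) *
      Complex.exp (-((t : ℂ) * I) * y) * u ^ k‖ =
      |a y| * Real.exp (-s0 * y) * ((‖u‖ * y) ^ k / (k.factorial : ℝ)) := by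
  rw [norm_mul, norm_mul, unit_norm, mul_one, norm_pow, Complex.norm_real, Real.norm_eq_abs,
    abs_div, abs_mul, abs_mul, Real.abs_exp, abs_of_nonneg (pow_nonneg hy.le k), Nat.abs_cast,
    mul_pow]
  ring

private theorem summ {a : ℝ → ℝ} (ha : Measurable a) {C r : ℝ}
    (hb : ∀ y : ℝ, 0 ≤ y → |a y| ≤ C * Real.exp (r * y)) {s0 : ℝ} (t : ℝ) (u : ℂ)
    (hu : ‖u‖ < s0 - r) :
    Summable fun k : ℕ => ∫ y in Set.Ioi (0 : ℝ),
      ‖((a y * Real.exp (-s0 * y) * y ^ k / (k.factorial : ℝ) : ℝ) : ℂ) *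
        Complex.exp (-((t : ℂ) * I) * y) * u ^ k‖ := by
  have hrs : r < s0 := by linarith [norm_nonneg u]
  have hint : ∀ k : ℕ, IntegrableOn (fun y : ℝ =>
      ‖((a y * Real.exp (-s0 * y) * y ^ k / (k.factorial : ℝ) : ℝ) : ℂ) *
        Complex.exp (-((t : ℂ) * I) * y) * u ^ k‖) (Set.Ioi 0) := fun k =>
    ((term_int ha hb hrs t k).mul_const (u ^ k)).norm
  have hI := (jc_integrable ha hb (s0 := s0 - ‖u‖) (by linarith) 0).norm
  refine summable_of_sum_le (c := ∫ y in Set.Ioi (0 : ℝ),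
    ‖a y * Real.exp (-(s0 - ‖u‖) * y) * y ^ 0 / ((Nat.factorial 0 : ℕ) : ℝ)‖)
    (fun k => integral_nonneg fun y => norm_nonneg _) ?_
  intro S
  rw [← integral_finsetSum S (fun k _ => hint k)]
  refine setIntegral_mono_on (integrable_finsetSum S fun k _ => hint k) hI measurableSet_Ioi ?_
  intro y hy
  have hy0 : 0 < y := hy
  simp only [norm_term s0 t u _ y hy0]
  rw [← Finset.mul_sum, pow_zero, mul_one, Nat.factorial_zero, Nat.cast_one, div_one,
    Real.norm_eq_abs, abs_mul, Real.abs_exp]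
  have e : Real.exp (-(s0 - ‖u‖) * y) = Real.exp (-s0 * y) * Real.exp (‖u‖ * y) := by
    rw [← Real.exp_add]; congr 1; ring
  rw [e, ← mul_assoc]
  refine mul_le_mul_of_nonneg_left ?_ (by positivity)
  have hs := NormedSpace.expSeries_div_hasSum_exp (‖u‖ * y)
  rw [← Real.exp_eq_exp_ℝ] at hs
  exact sum_le_hasSum S (fun k _ => by positivity) hs

/-- the Taylor coefficients of the Laplace transform at a complex centre -/
theorem cn_eq {a : ℝ → ℝ} (ha : Measurable a) {C r : ℝ}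
    (hb : ∀ y : ℝ, 0 ≤ y → |a y| ≤ C * Real.exp (r * y)) {H : ℂ → ℂ}
    (hH : ∀ z : ℂ, r < z.re → H z = ∫ y in Set.Ioi (0 : ℝ), (a y : ℂ) * Complex.exp (-z * y))
    {s0 t : ℝ} (h : r < s0) (k : ℕ) :
    PowerSeries.coeff k (T ((s0 : ℂ) + t * I) H) = ∫ y in Set.Ioi (0 : ℝ),
      ((a y * Real.exp (-s0 * y) * y ^ k / (k.factorial : ℝ) : ℝ) : ℂ) *
        Complex.exp (-((t : ℂ) * I) * y) := by
  refine T_unique (r := (s0 - r) / 2) (by linarith) (a := fun k => ∫ y in Set.Ioi (0 : ℝ),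
      ((a y * Real.exp (-s0 * y) * y ^ k / (k.factorial : ℝ) : ℝ) : ℂ) *
        Complex.exp (-((t : ℂ) * I) * y)) ?_ k
  intro s hs
  obtain ⟨u, hu⟩ : ∃ u : ℂ, u = ((s0 : ℂ) + t * I) - s := ⟨_, rfl⟩
  have hnorm : ‖u‖ < (s0 - r) / 2 := by
    rw [hu, ← dist_eq_norm, dist_comm]
    exact hs
  have hre : r < s.re := by
    have h1 : |u.re| ≤ ‖u‖ := Complex.abs_re_le_norm u
    have h2 : u.re = s0 - s.re := by rw [hu]; simp
    rw [h2] at h1
    have := (abs_le.1 h1).2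
    linarith
  have hFint : ∀ k : ℕ, Integrable (fun y : ℝ =>
      ((a y * Real.exp (-s0 * y) * y ^ k / (k.factorial : ℝ) : ℝ) : ℂ) *
        Complex.exp (-((t : ℂ) * I) * y) * u ^ k)
      (volume.restrict (Set.Ioi 0)) := fun k => (term_int ha hb h t k).mul_const (u ^ k)
  have hsum := hasSum_integral_of_summable_integral_norm hFint
    (summ ha hb t u (by linarith [norm_nonneg u]))
  have e1 : ∀ k : ℕ, ∫ y in Set.Ioi (0 : ℝ),
      ((a y * Real.exp (-s0 * y) * y ^ k / (k.factorial : ℝ) : ℝ) : ℂ) *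
        Complex.exp (-((t : ℂ) * I) * y) * u ^ k =
      (∫ y in Set.Ioi (0 : ℝ),
      ((a y * Real.exp (-s0 * y) * y ^ k / (k.factorial : ℝ) : ℝ) : ℂ) *
        Complex.exp (-((t : ℂ) * I) * y)) * (((s0 : ℂ) + t * I) - s) ^ k := by
    intro k
    rw [integral_mul_const, ← hu]
  have e2 : ∫ y in Set.Ioi (0 : ℝ), (∑' k : ℕ,
      ((a y * Real.exp (-s0 * y) * y ^ k / (k.factorial : ℝ) : ℝ) : ℂ) *
        Complex.exp (-((t : ℂ) * I) * y) * u ^ k) = H s := by
    rw [hH s hre]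
    refine setIntegral_congr_fun measurableSet_Ioi ?_
    intro y _
    simp only
    have h3 : ∀ k : ℕ,
        ((a y * Real.exp (-s0 * y) * y ^ k / (k.factorial : ℝ) : ℝ) : ℂ) *
          Complex.exp (-((t : ℂ) * I) * y) * u ^ k =
        (a y : ℂ) * Complex.exp (-(s0 : ℂ) * y) * Complex.exp (-((t : ℂ) * I) * y) *
          ((u * y) ^ k / (k.factorial : ℂ)) := by
      intro k
      push_cast
      rw [mul_pow]
      ring
    simp only [h3]
    rw [tsum_mul_left]
    have h4 := (NormedSpace.expSeries_div_hasSum_exp (u * (y : ℂ))).tsum_eq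
    rw [← Complex.exp_eq_exp_ℂ] at h4
    rw [h4, mul_assoc, mul_assoc, ← Complex.exp_add, ← Complex.exp_add, hu]
    congr 2
    ring
  rw [e2] at hsum
  simp only [e1] at hsum
  exact hsum

theorem cn {s t : ℝ} (hs : 1 / 2 < s) (k : ℕ) :
    ‖PowerSeries.coeff k (T ((s : ℂ) + t * I) Hf)‖ ≤
      ∫ y in Set.Ioi (0 : ℝ), |Pool.PWF.E (Real.exp y)| * Real.exp (-s * y) * y ^ k /
        (k.factorial : ℝ) := by
  have ham : Measurable (fun y => Pool.PWF.E (Real.exp y)) :=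
    E_measurable.comp Real.measurable_exp
  obtain ⟨C, hC⟩ := E_bound (r := (1 / 2 + s) / 2) (by linarith)
  rw [cn_eq ham hC (H := Hf) (fun z hz => E_laplace (by linarith)) (s0 := s) (t := t)
    (by linarith) k]
  refine (norm_integral_le_integral_norm _).trans (le_of_eq ?_)
  refine setIntegral_congr_fun measurableSet_Ioi ?_
  intro y hy
  have hy0 : 0 < y := hy
  simp only
  rw [norm_mul, unit_norm, mul_one, Complex.norm_real, Real.norm_eq_abs, abs_div, abs_mul,
    abs_mul, Real.abs_exp, abs_of_nonneg (pow_nonneg hy0.le k), Nat.abs_cast]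

end Pool.PWV
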