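import Pool.Agent.PWV.Defs

/-!
# PWV / CoreV: a function of one sign on the window
-/

set_option autoImplicit false

open Complex Finset Filter Topology MeasureTheory

namespace Pool.PWV

open Pool.PWU

theorem coreV {f : ℝ → ℝ} (hf : Measurable f) {C6 : ℝ} (hC6 : 0 ≤ C6)
    (hb : ∀ y : ℝ, 0 ≤ y → |f y| ≤ C6 * Real.exp (y / 6)) {s ℓ t r τ : ℝ} {k : ℕ} (hs : 1 ≤ s)
    (hℓ : 0 ≤ ℓ) (ht : 0 ≤ t) (hr0 : 0 ≤ r) (hr1 : r ≤ 1)
    (hpos : ∀ y : ℝ, ℓ < y → y ≤ ℓ + t → r ≤ f y)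
    (hτ : s ^ (k + 1) / (k.factorial : ℝ) *
      ((∫ y in Set.Ioc (0 : ℝ) ℓ, Real.exp (y / 6) * (Real.exp (-s * y) * y ^ k)) +
        ∫ y in Set.Ioi (ℓ + t), Real.exp (y / 6) * (Real.exp (-s * y) * y ^ k)) ≤ τ) :
    r ≤ s ^ (k + 1) / (k.factorial : ℝ) *
        (∫ y in Set.Ioi (0 : ℝ), f y * (Real.exp (-s * y) * y ^ k)) + (C6 + 1) * τ ∧
    s ^ (k + 1) / (k.factorial : ℝ) *
        (∫ y in Set.Ioi (0 : ℝ), |f y| * (Real.exp (-s * y) * y ^ k)) ≤
      s ^ (k + 1) / (k.factorial : ℝ) *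
        (∫ y in Set.Ioi (0 : ℝ), f y * (Real.exp (-s * y) * y ^ k)) + 2 * C6 * τ := by
  have hs0 : 0 < s := by linarith
  have hc0 : 0 < s ^ (k + 1) / (k.factorial : ℝ) := by
    have : 0 < (k.factorial : ℝ) := by exact_mod_cast k.factorial_pos
    positivity
  have hW : IntegrableOn (fun y : ℝ => Real.exp (y / 6) * (Real.exp (-s * y) * y ^ k))
      (Set.Ioi 0) := by
    refine (mgfR (s := s) (a := 1 / 6) (by linarith) k).1.congr_fun (fun y _ => ?_)
      measurableSet_Ioi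
    simp only
    rw [show 1 / 6 * y = y / 6 by ring]
  have hV : IntegrableOn (fun y : ℝ => Real.exp (-s * y) * y ^ k) (Set.Ioi 0) := by
    refine (mgfR (s := s) (a := 0) hs0 k).1.congr_fun (fun y _ => ?_) measurableSet_Ioi
    simp only
    rw [zero_mul, Real.exp_zero, one_mul]
  have hVt : s ^ (k + 1) / (k.factorial : ℝ) *
      ∫ y in Set.Ioi (0 : ℝ), Real.exp (-s * y) * y ^ k = 1 := by
    have h := (mgfR (s := s) (a := 0) hs0 k).2
    simp only [zero_mul, Real.exp_zero, one_mul, sub_zero] at h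
    rw [h, div_self hs0.ne', one_pow]
  have hfw : IntegrableOn (fun y : ℝ => f y * (Real.exp (-s * y) * y ^ k)) (Set.Ioi 0) := by
    refine Integrable.mono' (hW.const_mul C6) ?_ ?_
    · exact (hf.mul (by fun_prop)).aestronglyMeasurable
    · refine (ae_restrict_iff' measurableSet_Ioi).2 (Eventually.of_forall fun y hy => ?_)
      have hy0 : 0 < y := hy
      have hw : 0 ≤ Real.exp (-s * y) * y ^ k := by positivity
      rw [Real.norm_eq_abs, abs_mul, abs_of_nonneg hw]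
      have h1 := mul_le_mul_of_nonneg_right (hb y hy0.le) hw
      rwa [mul_assoc C6] at h1
  have haw : IntegrableOn (fun y : ℝ => |f y| * (Real.exp (-s * y) * y ^ k)) (Set.Ioi 0) := by
    have hn : IntegrableOn (fun y : ℝ => ‖f y * (Real.exp (-s * y) * y ^ k)‖) (Set.Ioi 0) :=
      hfw.norm
    refine hn.congr_fun (fun y hy => ?_) measurableSet_Ioi
    have hy0 : 0 < y := hy
    have hw : 0 ≤ Real.exp (-s * y) * y ^ k := by positivity
    simp only
    rw [Real.norm_eq_abs, abs_mul, abs_of_nonneg hw]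
  have s1 := split hfw hℓ ht
  have s2 := split hV hℓ ht
  have s3 := split haw hℓ ht
  have hsub : Set.Ioc ℓ (ℓ + t) ⊆ Set.Ioi 0 := fun y hy => lt_of_le_of_lt hℓ hy.1
  have hsub3 : Set.Ioi (ℓ + t) ⊆ Set.Ioi 0 := Set.Ioi_subset_Ioi (by positivity)
  have m1 : -C6 * (∫ y in Set.Ioc (0 : ℝ) ℓ, Real.exp (y / 6) * (Real.exp (-s * y) * y ^ k)) ≤
      ∫ y in Set.Ioc (0 : ℝ) ℓ, f y * (Real.exp (-s * y) * y ^ k) := by
    rw [← integral_const_mul]
    refine setIntegral_mono_on ((hW.mono_set Set.Ioc_subset_Ioi_self).const_mul _)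
      (hfw.mono_set Set.Ioc_subset_Ioi_self) measurableSet_Ioc fun y hy => ?_
    have hy0 : 0 < y := hy.1
    have hw : 0 ≤ Real.exp (-s * y) * y ^ k := by positivity
    have h1 := (abs_le.1 (hb y hy0.le)).1
    rw [← mul_assoc]
    apply mul_le_mul_of_nonneg_right _ hw
    linarith
  have a1 : (∫ y in Set.Ioc (0 : ℝ) ℓ, |f y| * (Real.exp (-s * y) * y ^ k)) ≤
      C6 * (∫ y in Set.Ioc (0 : ℝ) ℓ, Real.exp (y / 6) * (Real.exp (-s * y) * y ^ k)) := by
    rw [← integral_const_mul]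
    refine setIntegral_mono_on (haw.mono_set Set.Ioc_subset_Ioi_self)
      ((hW.mono_set Set.Ioc_subset_Ioi_self).const_mul _) measurableSet_Ioc fun y hy => ?_
    have hy0 : 0 < y := hy.1
    have hw : 0 ≤ Real.exp (-s * y) * y ^ k := by positivity
    rw [← mul_assoc C6]
    exact mul_le_mul_of_nonneg_right (hb y hy0.le) hw
  have m3 : -C6 * (∫ y in Set.Ioi (ℓ + t), Real.exp (y / 6) * (Real.exp (-s * y) * y ^ k)) ≤
      ∫ y in Set.Ioi (ℓ + t), f y * (Real.exp (-s * y) * y ^ k) := by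
    rw [← integral_const_mul]
    refine setIntegral_mono_on ((hW.mono_set hsub3).const_mul _)
      (hfw.mono_set hsub3) measurableSet_Ioi fun y hy => ?_
    have hy0 : 0 < y := hsub3 hy
    have hw : 0 ≤ Real.exp (-s * y) * y ^ k := by positivity
    have h1 := (abs_le.1 (hb y hy0.le)).1
    rw [← mul_assoc]
    apply mul_le_mul_of_nonneg_right _ hw
    linarith
  have a3 : (∫ y in Set.Ioi (ℓ + t), |f y| * (Real.exp (-s * y) * y ^ k)) ≤
      C6 * (∫ y in Set.Ioi (ℓ + t), Real.exp (y / 6) * (Real.exp (-s * y) * y ^ k)) := by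
    rw [← integral_const_mul]
    refine setIntegral_mono_on (haw.mono_set hsub3)
      ((hW.mono_set hsub3).const_mul _) measurableSet_Ioi fun y hy => ?_
    have hy0 : 0 < y := hsub3 hy
    have hw : 0 ≤ Real.exp (-s * y) * y ^ k := by positivity
    rw [← mul_assoc C6]
    exact mul_le_mul_of_nonneg_right (hb y hy0.le) hw
  have m2 : r * (∫ y in Set.Ioc ℓ (ℓ + t), Real.exp (-s * y) * y ^ k) ≤
      ∫ y in Set.Ioc ℓ (ℓ + t), f y * (Real.exp (-s * y) * y ^ k) := by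
    rw [← integral_const_mul]
    refine setIntegral_mono_on ((hV.mono_set hsub).const_mul _)
      (hfw.mono_set hsub) measurableSet_Ioc fun y hy => ?_
    have hy0 : 0 < y := lt_of_le_of_lt hℓ hy.1
    have hw : 0 ≤ Real.exp (-s * y) * y ^ k := by positivity
    exact mul_le_mul_of_nonneg_right (hpos y hy.1 hy.2) hw
  have a2 : (∫ y in Set.Ioc ℓ (ℓ + t), |f y| * (Real.exp (-s * y) * y ^ k)) =
      ∫ y in Set.Ioc ℓ (ℓ + t), f y * (Real.exp (-s * y) * y ^ k) := by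
    refine setIntegral_congr_fun measurableSet_Ioc fun y hy => ?_
    rw [abs_of_nonneg (hr0.trans (hpos y hy.1 hy.2))]
  have v1 : (∫ y in Set.Ioc (0 : ℝ) ℓ, Real.exp (-s * y) * y ^ k) ≤
      ∫ y in Set.Ioc (0 : ℝ) ℓ, Real.exp (y / 6) * (Real.exp (-s * y) * y ^ k) := by
    refine setIntegral_mono_on (hV.mono_set Set.Ioc_subset_Ioi_self)
      (hW.mono_set Set.Ioc_subset_Ioi_self) measurableSet_Ioc fun y hy => ?_
    have hy0 : 0 < y := hy.1
    have hw : 0 ≤ Real.exp (-s * y) * y ^ k := by positivity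
    have h1 : 1 ≤ Real.exp (y / 6) := Real.one_le_exp (by positivity)
    nlinarith
  have v3 : (∫ y in Set.Ioi (ℓ + t), Real.exp (-s * y) * y ^ k) ≤
      ∫ y in Set.Ioi (ℓ + t), Real.exp (y / 6) * (Real.exp (-s * y) * y ^ k) := by
    refine setIntegral_mono_on (hV.mono_set hsub3)
      (hW.mono_set hsub3) measurableSet_Ioi fun y hy => ?_
    have hy0 : 0 < y := hsub3 hy
    have hw : 0 ≤ Real.exp (-s * y) * y ^ k := by positivity
    have h1 : 1 ≤ Real.exp (y / 6) := Real.one_le_exp (by positivity)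
    nlinarith
  rw [s2] at hVt
  rw [s1, s3, a2]
  set c0 := s ^ (k + 1) / (k.factorial : ℝ) with hc0'
  set W1 := ∫ y in Set.Ioc (0 : ℝ) ℓ, Real.exp (y / 6) * (Real.exp (-s * y) * y ^ k) with hW1
  set W3 := ∫ y in Set.Ioi (ℓ + t), Real.exp (y / 6) * (Real.exp (-s * y) * y ^ k) with hW3
  set V1 := ∫ y in Set.Ioc (0 : ℝ) ℓ, Real.exp (-s * y) * y ^ k with hV1
  set V2 := ∫ y in Set.Ioc ℓ (ℓ + t), Real.exp (-s * y) * y ^ k with hV2
  set V3 := ∫ y in Set.Ioi (ℓ + t), Real.exp (-s * y) * y ^ k with hV3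
  set F1 := ∫ y in Set.Ioc (0 : ℝ) ℓ, f y * (Real.exp (-s * y) * y ^ k) with hF1
  set F2 := ∫ y in Set.Ioc ℓ (ℓ + t), f y * (Real.exp (-s * y) * y ^ k) with hF2
  set F3 := ∫ y in Set.Ioi (ℓ + t), f y * (Real.exp (-s * y) * y ^ k) with hF3
  set A1 := ∫ y in Set.Ioc (0 : ℝ) ℓ, |f y| * (Real.exp (-s * y) * y ^ k) with hA1
  set A3 := ∫ y in Set.Ioi (ℓ + t), |f y| * (Real.exp (-s * y) * y ^ k) with hA3
  have n1 : 0 ≤ c0 * W1 := by
    apply mul_nonneg hc0.le
    refine setIntegral_nonneg measurableSet_Ioc fun y hy => ?_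
    have hy0 : 0 < y := hy.1
    positivity
  have n3 : 0 ≤ c0 * W3 := by
    apply mul_nonneg hc0.le
    refine setIntegral_nonneg measurableSet_Ioi fun y hy => ?_
    have hy0 : 0 < y := hsub3 hy
    positivity
  have hτ' : c0 * W1 + c0 * W3 ≤ τ := by linarith [mul_add c0 W1 W3]
  have k1 := mul_le_mul_of_nonneg_left m1 hc0.le
  have k2 := mul_le_mul_of_nonneg_left m2 hc0.le
  have k3 := mul_le_mul_of_nonneg_left m3 hc0.le
  have w1 := mul_le_mul_of_nonneg_left (mul_le_mul_of_nonneg_left v1 hc0.le) hr0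
  have w3 := mul_le_mul_of_nonneg_left (mul_le_mul_of_nonneg_left v3 hc0.le) hr0
  have r1 : r * (c0 * W1) ≤ c0 * W1 := mul_le_of_le_one_left n1 hr1
  have r3 : r * (c0 * W3) ≤ c0 * W3 := mul_le_of_le_one_left n3 hr1
  have hr : r = r * (c0 * V1) + r * (c0 * V2) + r * (c0 * V3) := by
    have : r * (c0 * (V1 + V2 + V3)) = r := by rw [hVt, mul_one]
    linarith
  have hCτ : C6 * (c0 * W1 + c0 * W3) ≤ C6 * τ := mul_le_mul_of_nonneg_left hτ' hC6
  have b1 := mul_le_mul_of_nonneg_left a1 hc0.le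
  have b3 := mul_le_mul_of_nonneg_left a3 hc0.le
  constructor
  · nlinarith
  · nlinarith

end Pool.PWV
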