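import Pool.Agent.PWU.Ret
import Pool.Agent.Helper76.PWF.Crit

/-!
# PWV / Defs: E takes a value in [-1, 0] in every [X, X^(1+eps)]

PLAN. `f(y) = E(e^y)`, `Hf` its Laplace transform, `s = 16/eps^2`, windows of log x of Gamma type
around `[l, (1+eps) l]`. The poles of `Hf` are `0` and the set `Pset`. If no pole `p` in `Pset` has
`phi(p) = Re p - delta (Im p)^2 >= 0`, `delta = 1/(4s)`, the mean of `f` at `s` is `-1/2 + O(theta^k)`;
else let `p` be a pole with `phi(p)` maximal: it is the only pole of `Hf` in the closed disc of centre
`c = s + i t`, `t = Im p (1 - 2 a delta)`, `a = s - Re p`, and radius `d = |c - p|`, and all poles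
have distance from `s` larger than `d` (uniformly). So the coefficients at `c` are
of size `d^(-k)` and those at `s` are `O(q^(-k))` with `q > d`; if `f` has one sign on the
window, this is a contradiction, since the coefficient at `c` is bounded by the mean of `|f|`.
-/

set_option autoImplicit false

open Complex Finset Filter Topology MeasureTheory

namespace Pool.PWV

open Pool.PWF Pool.OMG

/-- the zeros of `zeta(6z)` which are poles of the Laplace transform -/
def Pset : Set ℂ :=
  {z | analyticOrderAt Nn z < analyticOrderAt (fun z => riemannZeta₁ (6 * z)) z}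

/-- the function to maximize -/
noncomputable def phi (δ : ℝ) (z : ℂ) : ℝ := z.re - δ * z.im ^ 2

end Pool.PWV
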