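import Pool.Agent.PWV.Defs

/-!
# PWV / TailV: the tails at `s = 16/eps^2`

PROOF (Chernoff, `Pool.PWU.mgfR`; model: `upR`, `lowR` in PWU/Ret). `a = 2/eps`, `a/s = eps/8`, `A = 1 + eps/2`. Upper tail: `e^(y/6) <= e^(a y) e^(-(a-1/6)(1+eps) l)`,
`(1 - a/s)^(-(k+1)) <= exp((a/s + (a/s)^2)(k+1))`, `k + 1 <= s A l + m + 1`: exponent
`l (-a(1+eps) + (1+eps)/6 + a A + a^2 A/s) = l (-1 + (1+eps)/6 + A/4) <= -(7/24) l`, plus a constant. Lower tail: `e^(y/6) <= e^(-a y) e^((a+1/6) l)`,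
`(1 + a/s)^(-(k+1)) <= exp(-(a/s - (a/s)^2)(k+1))`, `k + 1 >= s A l`: exponent `l (-1 + 1/6 + A/4) <= -(11/24) l`.
-/

set_option autoImplicit false

open Complex Finset Filter Topology MeasureTheory

namespace Pool.PWV

private theorem upG {s a b : ℝ} {k : ℕ} (hs : 0 < s) (ha : 1 / 6 ≤ a) (has : a < s) (hb : 0 ≤ b) :
    s ^ (k + 1) / (k.factorial : ℝ) *
      ∫ y in Set.Ioi b, Real.exp (y / 6) * (Real.exp (-s * y) * y ^ k) ≤
      Real.exp (-((a - 1 / 6) * b)) * (s / (s - a)) ^ (k + 1) := by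
  have hc0 : 0 < s ^ (k + 1) / (k.factorial : ℝ) := by
    have : 0 < (k.factorial : ℝ) := by exact_mod_cast k.factorial_pos
    positivity
  obtain ⟨i1, h⟩ := Pool.PWU.mgfR (s := s) (a := a) has k
  obtain ⟨i0, -⟩ := Pool.PWU.mgfR (s := s) (a := 1 / 6) (by linarith) k
  have i0' : IntegrableOn (fun y : ℝ => Real.exp (y / 6) * (Real.exp (-s * y) * y ^ k))
      (Set.Ioi 0) := by
    refine i0.congr_fun (fun y _ => ?_) measurableSet_Ioi
    simp only
    rw [show 1 / 6 * y = y / 6 by ring]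
  have m1 : (∫ y in Set.Ioi b, Real.exp (y / 6) * (Real.exp (-s * y) * y ^ k)) ≤
      ∫ y in Set.Ioi b, Real.exp (-((a - 1 / 6) * b)) *
        (Real.exp (a * y) * (Real.exp (-s * y) * y ^ k)) := by
    refine setIntegral_mono_on (i0'.mono_set (Set.Ioi_subset_Ioi hb))
      ((i1.mono_set (Set.Ioi_subset_Ioi hb)).const_mul _) measurableSet_Ioi fun y hy => ?_
    have hy0 : b < y := hy
    have hy1 : 0 < y := by linarith
    have hw : 0 ≤ Real.exp (-s * y) * y ^ k := by positivity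
    have e : Real.exp (y / 6) ≤ Real.exp (-((a - 1 / 6) * b)) * Real.exp (a * y) := by
      rw [← Real.exp_add]
      apply Real.exp_le_exp.2
      nlinarith [mul_nonneg (sub_nonneg.2 ha) (sub_nonneg.2 hy0.le)]
    have e' := mul_le_mul_of_nonneg_right e hw
    rwa [mul_assoc (Real.exp (-((a - 1 / 6) * b)))] at e'
  have m2 : (∫ y in Set.Ioi b, Real.exp (a * y) * (Real.exp (-s * y) * y ^ k)) ≤
      ∫ y in Set.Ioi (0 : ℝ), Real.exp (a * y) * (Real.exp (-s * y) * y ^ k) := by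
    refine setIntegral_mono_set i1 ?_ (Eventually.of_forall fun y hy => ?_)
    · refine (ae_restrict_iff' measurableSet_Ioi).2 (Eventually.of_forall fun y hy => ?_)
      have hy1 : 0 < y := hy
      simp only [Pi.zero_apply]
      positivity
    · exact lt_of_le_of_lt hb hy
  calc s ^ (k + 1) / (k.factorial : ℝ) *
        ∫ y in Set.Ioi b, Real.exp (y / 6) * (Real.exp (-s * y) * y ^ k)
      ≤ s ^ (k + 1) / (k.factorial : ℝ) * (Real.exp (-((a - 1 / 6) * b)) *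
        ∫ y in Set.Ioi (0 : ℝ), Real.exp (a * y) * (Real.exp (-s * y) * y ^ k)) := by
        apply mul_le_mul_of_nonneg_left _ hc0.le
        refine m1.trans ?_
        rw [integral_const_mul]
        exact mul_le_mul_of_nonneg_left m2 (Real.exp_pos _).le
    _ = Real.exp (-((a - 1 / 6) * b)) * (s / (s - a)) ^ (k + 1) := by rw [← h]; ring

private theorem lowG {s a b : ℝ} {k : ℕ} (hs : 1 / 6 < s) (ha : 0 ≤ a) :
    s ^ (k + 1) / (k.factorial : ℝ) *
      ∫ y in Set.Ioc (0 : ℝ) b, Real.exp (y / 6) * (Real.exp (-s * y) * y ^ k) ≤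
      Real.exp ((a + 1 / 6) * b) * (s / (s + a)) ^ (k + 1) := by
  have hs0 : 0 < s := by linarith
  have hc0 : 0 < s ^ (k + 1) / (k.factorial : ℝ) := by
    have : 0 < (k.factorial : ℝ) := by exact_mod_cast k.factorial_pos
    positivity
  obtain ⟨i1, h⟩ := Pool.PWU.mgfR (s := s) (a := -a) (by linarith) k
  obtain ⟨i0, -⟩ := Pool.PWU.mgfR (s := s) (a := 1 / 6) hs k
  have i0' : IntegrableOn (fun y : ℝ => Real.exp (y / 6) * (Real.exp (-s * y) * y ^ k))
      (Set.Ioi 0) := by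
    refine i0.congr_fun (fun y _ => ?_) measurableSet_Ioi
    simp only
    rw [show 1 / 6 * y = y / 6 by ring]
  have m1 : (∫ y in Set.Ioc (0 : ℝ) b, Real.exp (y / 6) * (Real.exp (-s * y) * y ^ k)) ≤
      ∫ y in Set.Ioc (0 : ℝ) b, Real.exp ((a + 1 / 6) * b) *
        (Real.exp (-a * y) * (Real.exp (-s * y) * y ^ k)) := by
    refine setIntegral_mono_on (i0'.mono_set Set.Ioc_subset_Ioi_self)
      ((i1.mono_set Set.Ioc_subset_Ioi_self).const_mul _) measurableSet_Ioc fun y hy => ?_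
    have hy0 : y ≤ b := hy.2
    have hy1 : 0 < y := hy.1
    have hw : 0 ≤ Real.exp (-s * y) * y ^ k := by positivity
    have e : Real.exp (y / 6) ≤ Real.exp ((a + 1 / 6) * b) * Real.exp (-a * y) := by
      rw [← Real.exp_add]
      apply Real.exp_le_exp.2
      nlinarith [mul_nonneg ha (sub_nonneg.2 hy0)]
    have e' := mul_le_mul_of_nonneg_right e hw
    rwa [mul_assoc (Real.exp ((a + 1 / 6) * b))] at e'
  have m2 : (∫ y in Set.Ioc (0 : ℝ) b, Real.exp (-a * y) * (Real.exp (-s * y) * y ^ k)) ≤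
      ∫ y in Set.Ioi (0 : ℝ), Real.exp (-a * y) * (Real.exp (-s * y) * y ^ k) := by
    refine setIntegral_mono_set i1 ?_ (Eventually.of_forall fun y hy => ?_)
    · refine (ae_restrict_iff' measurableSet_Ioi).2 (Eventually.of_forall fun y hy => ?_)
      have hy1 : 0 < y := hy
      simp only [Pi.zero_apply]
      positivity
    · exact hy.1
  calc s ^ (k + 1) / (k.factorial : ℝ) *
        ∫ y in Set.Ioc (0 : ℝ) b, Real.exp (y / 6) * (Real.exp (-s * y) * y ^ k)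
      ≤ s ^ (k + 1) / (k.factorial : ℝ) * (Real.exp ((a + 1 / 6) * b) *
        ∫ y in Set.Ioi (0 : ℝ), Real.exp (-a * y) * (Real.exp (-s * y) * y ^ k)) := by
        apply mul_le_mul_of_nonneg_left _ hc0.le
        refine m1.trans ?_
        rw [integral_const_mul]
        exact mul_le_mul_of_nonneg_left m2 (Real.exp_pos _).le
    _ = Real.exp ((a + 1 / 6) * b) * (s / (s - -a)) ^ (k + 1) := by rw [← h]; ring
    _ = Real.exp ((a + 1 / 6) * b) * (s / (s + a)) ^ (k + 1) := by rw [sub_neg_eq_add]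

private theorem bd1 {x : ℝ} (h0 : 0 ≤ x) (h1 : x ≤ 1 / 8) : 1 / (1 - x) ≤ Real.exp (x + x ^ 2) := by
  have h2 := Real.quadratic_le_exp_of_nonneg (show 0 ≤ x + x ^ 2 by positivity)
  refine le_trans ?_ h2
  rw [div_le_iff₀ (by linarith)]
  have e : (1 + (x + x ^ 2) + (x + x ^ 2) ^ 2 / 2) * (1 - x) - 1 =
      x ^ 2 * (1 / 2 - x / 2 - x ^ 2 / 2 - x ^ 3 / 2) := by ring
  have h3 : x ^ 2 ≤ 1 / 8 := by nlinarith
  have h4 : x ^ 3 ≤ 1 / 8 := by
    have : x ^ 3 = x ^ 2 * x := by ring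
    nlinarith [sq_nonneg x]
  have h5 : 0 ≤ x ^ 2 * (1 / 2 - x / 2 - x ^ 2 / 2 - x ^ 3 / 2) :=
    mul_nonneg (sq_nonneg x) (by linarith)
  linarith

private theorem bd2 {x : ℝ} (h0 : 0 ≤ x) : 1 / (1 + x) ≤ Real.exp (-(x - x ^ 2)) := by
  have h2 := Real.add_one_le_exp (-(x - x ^ 2))
  refine le_trans ?_ h2
  rw [div_le_iff₀ (by linarith)]
  have h3 : 0 ≤ x ^ 3 := by positivity
  nlinarith

theorem tailV {ε : ℝ} (h0 : 0 < ε) (h1 : ε ≤ 1) (m : ℕ) : ∃ C : ℝ, ∀ (ℓ : ℝ) (k : ℕ), 0 ≤ ℓ →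
    16 / ε ^ 2 * (1 + ε / 2) * ℓ - 1 ≤ k → (k : ℝ) ≤ 16 / ε ^ 2 * (1 + ε / 2) * ℓ + m →
    (16 / ε ^ 2) ^ (k + 1) / (k.factorial : ℝ) *
      ((∫ y in Set.Ioc (0 : ℝ) ℓ, Real.exp (y / 6) * (Real.exp (-(16 / ε ^ 2) * y) * y ^ k)) +
        ∫ y in Set.Ioi (ℓ + ε * ℓ), Real.exp (y / 6) * (Real.exp (-(16 / ε ^ 2) * y) * y ^ k)) ≤
      C * Real.exp (-(ℓ / 4)) := by
  refine ⟨1 + Real.exp (m + 1), fun ℓ k hℓ hk1 hk2 => ?_⟩
  have hε2 : 0 < ε ^ 2 := by positivity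
  have hs16 : (16 : ℝ) ≤ 16 / ε ^ 2 := by
    rw [le_div_iff₀ hε2]
    nlinarith
  have hs0 : (0 : ℝ) < 16 / ε ^ 2 := by linarith
  have ha2 : 2 ≤ 2 / ε := by
    rw [le_div_iff₀ h0]
    linarith
  have has : 2 / ε < 16 / ε ^ 2 := by
    rw [div_lt_div_iff₀ h0 hε2]
    nlinarith
  have hx0 : 0 ≤ ε / 8 := by linarith
  have hx1 : ε / 8 ≤ 1 / 8 := by linarith
  -- lower
  have L := lowG (s := 16 / ε ^ 2) (a := 2 / ε) (b := ℓ) (k := k) (by linarith) (by linarith)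
  have U := upG (s := 16 / ε ^ 2) (a := 2 / ε) (b := ℓ + ε * ℓ) (k := k) hs0 (by linarith) has
    (by positivity)
  have q1 : 16 / ε ^ 2 / (16 / ε ^ 2 + 2 / ε) = 1 / (1 + ε / 8) := by
    field_simp
    ring
  have q2 : 16 / ε ^ 2 / (16 / ε ^ 2 - 2 / ε) = 1 / (1 - ε / 8) := by
    have h3 : (16 : ℝ) / ε ^ 2 - 2 / ε = 16 / ε ^ 2 * (1 - ε / 8) := by
      field_simp
      ring
    have h4 : (1 : ℝ) - ε / 8 ≠ 0 := by
      intro h
      linarith
    rw [h3]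
    field_simp
  rw [q1] at L
  rw [q2] at U
  have p1 : (1 / (1 + ε / 8)) ^ (k + 1) ≤
      Real.exp (-((ε / 8 - (ε / 8) ^ 2) * (k + 1))) := by
    calc (1 / (1 + ε / 8)) ^ (k + 1) ≤ (Real.exp (-(ε / 8 - (ε / 8) ^ 2))) ^ (k + 1) :=
          pow_le_pow_left₀ (by positivity) (bd2 hx0) _
      _ = Real.exp (-((ε / 8 - (ε / 8) ^ 2) * (k + 1))) := by
          rw [← Real.exp_nat_mul]
          congr 1
          push_cast
          ring
  have p2 : (1 / (1 - ε / 8)) ^ (k + 1) ≤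
      Real.exp ((ε / 8 + (ε / 8) ^ 2) * (k + 1)) := by
    have h5 : 0 ≤ 1 / (1 - ε / 8) := by
      apply div_nonneg zero_le_one
      linarith
    calc (1 / (1 - ε / 8)) ^ (k + 1) ≤ (Real.exp (ε / 8 + (ε / 8) ^ 2)) ^ (k + 1) :=
          pow_le_pow_left₀ h5 (bd1 hx0 hx1) _
      _ = Real.exp ((ε / 8 + (ε / 8) ^ 2) * (k + 1)) := by
          rw [← Real.exp_nat_mul]
          congr 1
          push_cast
          ring
  have e1 : Real.exp ((2 / ε + 1 / 6) * ℓ) * (1 / (1 + ε / 8)) ^ (k + 1) ≤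
      Real.exp (-(ℓ / 4)) := by
    calc Real.exp ((2 / ε + 1 / 6) * ℓ) * (1 / (1 + ε / 8)) ^ (k + 1)
        ≤ Real.exp ((2 / ε + 1 / 6) * ℓ) * Real.exp (-((ε / 8 - (ε / 8) ^ 2) * (k + 1))) :=
          mul_le_mul_of_nonneg_left p1 (Real.exp_pos _).le
      _ ≤ Real.exp (-(ℓ / 4)) := by
          rw [← Real.exp_add]
          apply Real.exp_le_exp.2
          have h6 : 0 ≤ ε / 8 - (ε / 8) ^ 2 := by nlinarith
          have h7 : (ε / 8 - (ε / 8) ^ 2) * (16 / ε ^ 2 * (1 + ε / 2) * ℓ) ≤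
              (ε / 8 - (ε / 8) ^ 2) * (k + 1) :=
            mul_le_mul_of_nonneg_left (by linarith) h6
          have h8 : (ε / 8 - (ε / 8) ^ 2) * (16 / ε ^ 2 * (1 + ε / 2) * ℓ) =
              2 / ε * ℓ + (3 / 4 - ε / 8) * ℓ := by
            field_simp
            ring
          rw [h8] at h7
          nlinarith [mul_nonneg h0.le hℓ, mul_le_mul_of_nonneg_right h1 hℓ]
  have e2 : Real.exp (-((2 / ε - 1 / 6) * (ℓ + ε * ℓ))) * (1 / (1 - ε / 8)) ^ (k + 1) ≤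
      Real.exp (m + 1) * Real.exp (-(ℓ / 4)) := by
    calc Real.exp (-((2 / ε - 1 / 6) * (ℓ + ε * ℓ))) * (1 / (1 - ε / 8)) ^ (k + 1)
        ≤ Real.exp (-((2 / ε - 1 / 6) * (ℓ + ε * ℓ))) *
          Real.exp ((ε / 8 + (ε / 8) ^ 2) * (k + 1)) :=
          mul_le_mul_of_nonneg_left p2 (Real.exp_pos _).le
      _ ≤ Real.exp (m + 1) * Real.exp (-(ℓ / 4)) := by
          rw [← Real.exp_add, ← Real.exp_add]
          apply Real.exp_le_exp.2
          have h6 : 0 ≤ ε / 8 + (ε / 8) ^ 2 := by positivity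
          have h6' : ε / 8 + (ε / 8) ^ 2 ≤ 1 := by nlinarith
          have h7 : (ε / 8 + (ε / 8) ^ 2) * (k + 1) ≤
              (ε / 8 + (ε / 8) ^ 2) * (16 / ε ^ 2 * (1 + ε / 2) * ℓ) +
                (ε / 8 + (ε / 8) ^ 2) * ((m : ℝ) + 1) := by
            rw [← mul_add]
            exact mul_le_mul_of_nonneg_left (by linarith) h6
          have h8 : (ε / 8 + (ε / 8) ^ 2) * (16 / ε ^ 2 * (1 + ε / 2) * ℓ) =
              2 / ε * ℓ + (5 / 4 + ε / 8) * ℓ := by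
            field_simp
            ring
          have h9 : (ε / 8 + (ε / 8) ^ 2) * ((m : ℝ) + 1) ≤ 1 * ((m : ℝ) + 1) :=
            mul_le_mul_of_nonneg_right h6' (by positivity)
          rw [h8] at h7
          have h10 : (2 / ε - 1 / 6) * (ℓ + ε * ℓ) =
              2 / ε * ℓ + 2 * ℓ - 1 / 6 * ℓ - 1 / 6 * (ε * ℓ) := by
            field_simp
            ring
          rw [h10]
          nlinarith [mul_nonneg h0.le hℓ, mul_le_mul_of_nonneg_right h1 hℓ]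
  rw [mul_add, add_mul, one_mul]
  exact add_le_add (L.trans e1) (U.trans e2)

end Pool.PWV
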