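import Pool.Agent.PWV.Alt
import Pool.Agent.PWV.Cn
import Pool.Agent.PWV.TailV
import Pool.Agent.PWV.CoreV

/-!
# PWV / FinV: E takes a value in [-1, 0] in every [X, X^(1+eps)]
-/

set_option autoImplicit false

open Complex Finset Filter Topology MeasureTheory

namespace Pool.PWV

open Pool.PWE Pool.PWU

private theorem jform (g : ℝ → ℝ) (s : ℝ) (k : ℕ) :
    ∫ y in Set.Ioi (0 : ℝ), g y * Real.exp (-s * y) * y ^ k / (k.factorial : ℝ) =
      (∫ y in Set.Ioi (0 : ℝ), g y * (Real.exp (-s * y) * y ^ k)) / (k.factorial : ℝ) := by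
  rw [← integral_div]
  refine setIntegral_congr_fun measurableSet_Ioi fun y _ => ?_
  ring

/-- the coefficient at `s` -/
private theorem coeff_real {s : ℝ} (hs : 1 / 2 < s) (k : ℕ) :
    (((∫ y in Set.Ioi (0 : ℝ), E (Real.exp y) * (Real.exp (-s * y) * y ^ k)) /
      (k.factorial : ℝ) : ℝ) : ℂ) = PowerSeries.coeff k (Pool.OMG.T (s : ℂ) Pool.PWF.Hf) := by
  have ham : Measurable (fun y => Pool.PWF.E (Real.exp y)) :=
    Pool.PWF.E_measurable.comp Real.measurable_exp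
  obtain ⟨C, hC⟩ := Pool.PWF.E_bound (r := (1 / 2 + s) / 2) (by linarith)
  have h1 := Pool.PWF.jc_eq ham hC (H := Pool.PWF.Hf)
    (fun z hz => Pool.PWF.E_laplace (by linarith)) (s0 := s) (by linarith) k
  rw [← h1, ← jform, E_eqU]
  rfl

theorem retE (ε : ℝ) (hε : 0 < ε) (hε1 : ε ≤ 1) : ∃ X₀ : ℝ, ∀ X : ℝ, X₀ ≤ X →
    ∃ y : ℝ, X ≤ y ∧ y ≤ X ^ (1 + ε) ∧ -1 ≤ E y ∧ E y ≤ 0 := by
  obtain ⟨C6, hC6, h6⟩ := E_six
  obtain ⟨s, hsdef⟩ : ∃ s : ℝ, s = 16 / ε ^ 2 := ⟨_, rfl⟩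
  have hs16 : 16 ≤ s := by
    rw [hsdef, le_div_iff₀ (by positivity)]
    nlinarith
  have hs0 : 0 < s := by linarith
  set f : ℝ → ℝ := fun y => E (Real.exp y) with hf
  have hmeas : Measurable f := Pool.PWE.E_measurable.comp Real.measurable_exp
  have hb6 : ∀ y : ℝ, 0 ≤ y → |f y| ≤ C6 * Real.exp (y / 6) := by
    intro y hy
    have h1 := h6 (Real.exp y) (Real.one_le_exp hy)
    rwa [← Real.exp_mul, mul_one_div] at h1
  -- the setting at `X`
  have hset : ∀ X : ℝ, 1 ≤ X →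
      (¬ ∃ y : ℝ, X ≤ y ∧ y ≤ X ^ (1 + ε) ∧ -1 ≤ E y ∧ E y ≤ 0) →
      (∀ y, Real.log X < y → y ≤ Real.log X + ε * Real.log X → 0 ≤ f y) ∨
      (∀ y, Real.log X < y → y ≤ Real.log X + ε * Real.log X → 1 ≤ -f y) := by
    intro X hX1 hcon
    have hX0 : 0 < X := by linarith
    push Not at hcon
    have hav := E_avoid (b := X ^ (1 + ε)) hX1 (fun x h1 h2 h3 =>
      absurd h3.2 (not_le.2 (hcon x h1 h2 h3.1)))
    have hmid : ∀ y : ℝ, Real.log X < y → y ≤ Real.log X + ε * Real.log X →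
        X ≤ Real.exp y ∧ Real.exp y ≤ X ^ (1 + ε) := by
      intro y h1 h2
      constructor
      · rw [← Real.exp_log hX0]
        exact Real.exp_le_exp.2 h1.le
      · rw [Real.rpow_def_of_pos hX0]
        apply Real.exp_le_exp.2
        linarith
    rcases hav with hS | hS
    · exact Or.inl fun y h1 h2 => (hS _ (hmid y h1 h2).1 (hmid y h1 h2).2).le
    · refine Or.inr fun y h1 h2 => ?_
      have := hS _ (hmid y h1 h2).1 (hmid y h1 h2).2
      simp only [hf]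
      linarith
  have hnegb : ∀ y : ℝ, 0 ≤ y → |-f y| ≤ C6 * Real.exp (y / 6) := fun y hy => by
    rw [abs_neg]
    exact hb6 y hy
  have hnegJ : ∀ k : ℕ, (∫ y in Set.Ioi (0 : ℝ), -f y * (Real.exp (-s * y) * y ^ k)) =
      -∫ y in Set.Ioi (0 : ℝ), f y * (Real.exp (-s * y) * y ^ k) := by
    intro k
    rw [← integral_neg]
    refine setIntegral_congr_fun measurableSet_Ioi fun y _ => ?_
    ring
  have hnegA : ∀ k : ℕ, (∫ y in Set.Ioi (0 : ℝ), |-f y| * (Real.exp (-s * y) * y ^ k)) =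
      ∫ y in Set.Ioi (0 : ℝ), |f y| * (Real.exp (-s * y) * y ^ k) := by
    intro k
    simp only [abs_neg]
  have hk0 : ∀ k : ℕ, (0 : ℝ) < (k.factorial : ℝ) := fun k => by
    exact_mod_cast k.factorial_pos
  have hfloor : Tendsto (fun X : ℝ => ⌊16 / ε ^ 2 * (1 + ε / 2) * Real.log X⌋₊) atTop atTop :=
    tendsto_nat_floor_atTop.comp (Real.tendsto_log_atTop.const_mul_atTop (by positivity))
  have texp : Tendsto (fun X : ℝ => Real.exp (-(Real.log X / 4))) atTop (𝓝 0) :=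
    Real.tendsto_exp_neg_atTop_nhds_zero.comp
      (Real.tendsto_log_atTop.atTop_div_const (by norm_num))
  have tpow : ∀ θ : ℝ, 0 < θ → θ < 1 →
      Tendsto (fun X : ℝ => θ ^ ⌊16 / ε ^ 2 * (1 + ε / 2) * Real.log X⌋₊) atTop (𝓝 0) :=
    fun θ h0 h1 => (tendsto_pow_atTop_nhds_zero_of_lt_one h0.le h1).comp hfloor
  rcases alt s (by linarith) with ⟨q, C, hsq, hC⟩ | ⟨t, d, q, C, c₀, m, k0, hd0, hdq, hds, hc0, hC, hlow⟩
  · -- the pole at 0 dominates
    obtain ⟨Ct, hCt⟩ := tailV hε hε1 0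
    rw [← hsdef] at hCt
    have hq0 : 0 < q := by linarith
    have hmean : ∀ k : ℕ, |s ^ (k + 1) / (k.factorial : ℝ) *
        (∫ y in Set.Ioi (0 : ℝ), f y * (Real.exp (-s * y) * y ^ k)) + 1 / 2| ≤
        s * C * (s / q) ^ k := by
      intro k
      have h1 := hC k
      rw [← coeff_real (by linarith)] at h1
      set J := ∫ y in Set.Ioi (0 : ℝ), f y * (Real.exp (-s * y) * y ^ k) with hJ
      have h2 : ((J / (k.factorial : ℝ) : ℝ) : ℂ) - (-1 / 2) * (1 / (s : ℂ)) ^ (k + 1) =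
          ((J / (k.factorial : ℝ) + 1 / 2 * (1 / s) ^ (k + 1) : ℝ) : ℂ) := by
        push_cast
        ring
      rw [h2, Complex.norm_real, Real.norm_eq_abs] at h1
      have h3 : s ^ (k + 1) / (k.factorial : ℝ) * J + 1 / 2 =
          s ^ (k + 1) * (J / (k.factorial : ℝ) + 1 / 2 * (1 / s) ^ (k + 1)) := by
        have : s ^ (k + 1) * (1 / s) ^ (k + 1) = 1 := by
          rw [← mul_pow, mul_one_div_cancel hs0.ne', one_pow]
        linear_combination (-1 / 2) * this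
      rw [h3, abs_mul, abs_of_pos (by positivity)]
      have h4 := mul_le_mul_of_nonneg_left h1 (show 0 ≤ s ^ (k + 1) by positivity)
      refine h4.trans (le_of_eq ?_)
      rw [div_pow, div_pow, one_pow, pow_succ]
      ring
    have hlim : Tendsto (fun X : ℝ => (C6 + 1) * (|Ct| * Real.exp (-(Real.log X / 4))) +
        s * C * (s / q) ^ ⌊16 / ε ^ 2 * (1 + ε / 2) * Real.log X⌋₊) atTop (𝓝 0) := by
      have t3 := ((texp.const_mul |Ct|).const_mul (C6 + 1)).add
        ((tpow (s / q) (by positivity) (by rw [div_lt_one hq0]; exact hsq)).const_mul (s * C))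
      simpa using t3
    obtain ⟨X₀, hX₀⟩ := eventually_atTop.1
      ((hlim.eventually_lt_const (show (0 : ℝ) < 1 / 2 by norm_num)).and (eventually_ge_atTop 1))
    refine ⟨X₀, fun X hX => ?_⟩
    obtain ⟨hsmall, hX1⟩ := hX₀ X hX
    by_contra hcon
    have hℓ0 : 0 ≤ Real.log X := Real.log_nonneg hX1
    have hs2 := hset X hX1 hcon
    set ℓ := Real.log X with hℓ
    have hk1 : 16 / ε ^ 2 * (1 + ε / 2) * ℓ - 1 ≤ (⌊16 / ε ^ 2 * (1 + ε / 2) * ℓ⌋₊ : ℕ) :=
      (Nat.sub_one_lt_floor _).le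
    have hk2 : ((⌊16 / ε ^ 2 * (1 + ε / 2) * ℓ⌋₊ : ℕ) : ℝ) ≤ 16 / ε ^ 2 * (1 + ε / 2) * ℓ :=
      Nat.floor_le (by positivity)
    rw [← hsdef] at hk1 hk2 hsmall
    set k := ⌊s * (1 + ε / 2) * ℓ⌋₊ with hk
    have hT := hCt ℓ k hℓ0 hk1 (by simpa using hk2)
    have hT' := hT.trans (mul_le_mul_of_nonneg_right (le_abs_self Ct) (Real.exp_pos _).le)
    have hM := abs_le.1 (hmean k)
    rcases hs2 with hS | hS
    · have h1 := (coreV hmeas hC6.le hb6 (by linarith) hℓ0 (by positivity) le_rfl zero_le_one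
        hS hT').1
      linarith [hM.2]
    · have h1 := (coreV (f := fun y => -f y) hmeas.neg hC6.le hnegb (by linarith) hℓ0
        (by positivity) zero_le_one le_rfl hS hT').1
      rw [hnegJ, mul_neg] at h1
      linarith [hM.1]
  · -- a nonreal pole dominates
    obtain ⟨Ct, hCt⟩ := tailV hε hε1 m
    rw [← hsdef] at hCt
    have hq0 : 0 < q := by linarith
    have hC0 : 0 ≤ C := by
      have h := (norm_nonneg _).trans (hC 0)
      rwa [pow_zero, mul_one] at h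
    have hlim : Tendsto (fun X : ℝ => 2 * C6 * (|Ct| * Real.exp (-(Real.log X / 4))) +
        s * C * (d / q) ^ ⌊16 / ε ^ 2 * (1 + ε / 2) * Real.log X⌋₊) atTop (𝓝 0) := by
      have t3 := ((texp.const_mul |Ct|).const_mul (2 * C6)).add
        ((tpow (d / q) (by positivity) (by rw [div_lt_one hq0]; exact hdq)).const_mul (s * C))
      simpa using t3
    obtain ⟨X₀, hX₀⟩ := eventually_atTop.1
      ((hlim.eventually_lt_const (show (0 : ℝ) < s * c₀ by positivity)).and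
        ((hfloor.eventually_ge_atTop k0).and (eventually_ge_atTop 1)))
    refine ⟨X₀, fun X hX => ?_⟩
    obtain ⟨hsmall, hkk, hX1⟩ := hX₀ X hX
    by_contra hcon
    have hℓ0 : 0 ≤ Real.log X := Real.log_nonneg hX1
    have hs2 := hset X hX1 hcon
    set ℓ := Real.log X with hℓ
    have hk1 : 16 / ε ^ 2 * (1 + ε / 2) * ℓ - 1 ≤ (⌊16 / ε ^ 2 * (1 + ε / 2) * ℓ⌋₊ : ℕ) :=
      (Nat.sub_one_lt_floor _).le
    have hk2 : ((⌊16 / ε ^ 2 * (1 + ε / 2) * ℓ⌋₊ : ℕ) : ℝ) ≤ 16 / ε ^ 2 * (1 + ε / 2) * ℓ :=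
      Nat.floor_le (by positivity)
    rw [← hsdef] at hk1 hk2 hsmall hkk
    set K := ⌊s * (1 + ε / 2) * ℓ⌋₊ with hK
    obtain ⟨i, hi, hik⟩ := hlow K hkk
    have hi' : (i : ℝ) ≤ m := by exact_mod_cast hi
    obtain ⟨k, hk⟩ : ∃ k, k = K + i := ⟨_, rfl⟩
    rw [← hk] at hik
    have hkc : (k : ℝ) = K + i := by rw [hk]; push_cast; ring
    have hT := hCt ℓ k hℓ0 (by rw [hkc]; linarith [(Nat.cast_nonneg i : (0 : ℝ) ≤ i)])
      (by rw [hkc]; linarith)
    have hT' := hT.trans (mul_le_mul_of_nonneg_right (le_abs_self Ct) (Real.exp_pos _).le)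
    set J := ∫ y in Set.Ioi (0 : ℝ), f y * (Real.exp (-s * y) * y ^ k) with hJ
    set A := ∫ y in Set.Ioi (0 : ℝ), |f y| * (Real.exp (-s * y) * y ^ k) with hA
    have hcA : ‖PowerSeries.coeff k (Pool.OMG.T ((s : ℂ) + t * I) Pool.PWF.Hf)‖ ≤
        A / (k.factorial : ℝ) := by
      have h1 := cn (s := s) (t := t) (by linarith) k
      rw [E_eqU] at h1
      rwa [jform (fun y => |E (Real.exp y)|)] at h1
    have hcJ : |J| / (k.factorial : ℝ) ≤ C * (1 / q) ^ k := by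
      have h1 := hC k
      rwa [← coeff_real (by linarith), Complex.norm_real, Real.norm_eq_abs, abs_div,
        Nat.abs_cast] at h1
    have hAJ : s ^ (k + 1) / (k.factorial : ℝ) * A ≤
        s ^ (k + 1) / (k.factorial : ℝ) * |J| + 2 * C6 * (|Ct| * Real.exp (-(ℓ / 4))) := by
      have hc : 0 ≤ s ^ (k + 1) / (k.factorial : ℝ) := by
        have := hk0 k
        positivity
      rcases hs2 with hS | hS
      · have h1 := (coreV hmeas hC6.le hb6 (by linarith) hℓ0 (by positivity) le_rfl zero_le_one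
          hS hT').2
        have h2 := mul_le_mul_of_nonneg_left (le_abs_self J) hc
        linarith
      · have h1 := (coreV (f := fun y => -f y) hmeas.neg hC6.le hnegb (by linarith) hℓ0
          (by positivity) zero_le_one le_rfl hS hT').2
        rw [hnegJ, hnegA, mul_neg] at h1
        have h2 := mul_le_mul_of_nonneg_left (neg_le_abs J) hc
        linarith
    have hsk : (0 : ℝ) < s ^ (k + 1) := by positivity
    have e1 : s ^ (k + 1) * (c₀ * (1 / d) ^ k) ≤ s ^ (k + 1) * (C * (1 / q) ^ k) +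
        2 * C6 * (|Ct| * Real.exp (-(ℓ / 4))) := by
      have h1 := mul_le_mul_of_nonneg_left (hik.trans hcA) hsk.le
      have h2 := mul_le_mul_of_nonneg_left hcJ hsk.le
      have h3 : s ^ (k + 1) * (A / (k.factorial : ℝ)) = s ^ (k + 1) / (k.factorial : ℝ) * A := by
        ring
      have h4 : s ^ (k + 1) * (|J| / (k.factorial : ℝ)) =
          s ^ (k + 1) / (k.factorial : ℝ) * |J| := by ring
      linarith
    have hds1 : (d / s) ^ k ≤ 1 := pow_le_one₀ (by positivity) (by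
      rw [div_le_one hs0]; exact hds.le)
    have hdsk : 0 < (d / s) ^ k := by positivity
    have e2 := mul_le_mul_of_nonneg_right e1 hdsk.le
    have e3 : s ^ (k + 1) * (c₀ * (1 / d) ^ k) * (d / s) ^ k = s * c₀ := by
      rw [pow_succ, div_pow, div_pow, one_pow]
      field_simp
    have e4 : s ^ (k + 1) * (C * (1 / q) ^ k) * (d / s) ^ k = s * C * (d / q) ^ k := by
      rw [pow_succ, div_pow, div_pow, div_pow, one_pow]
      field_simp
    rw [e3, add_mul, e4] at e2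
    have e5 : (d / q) ^ k ≤ (d / q) ^ K :=
      pow_le_pow_of_le_one (by positivity) (by rw [div_le_one hq0]; exact hdq.le) (by omega)
    have e6 : s * C * (d / q) ^ k ≤ s * C * (d / q) ^ K :=
      mul_le_mul_of_nonneg_left e5 (by positivity)
    have e7 : 2 * C6 * (|Ct| * Real.exp (-(ℓ / 4))) * (d / s) ^ k ≤
        2 * C6 * (|Ct| * Real.exp (-(ℓ / 4))) :=
      mul_le_of_le_one_right (by positivity) hds1
    linarith

/-- for every `eps > 0` and all large `X`, `E` takes a value in `[-1, 0]` in `[X, X^(1+eps)]` -/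
theorem retAll (ε : ℝ) (hε : 0 < ε) : ∃ X₀ : ℝ, ∀ X : ℝ, X₀ ≤ X →
    ∃ y : ℝ, X ≤ y ∧ y ≤ X ^ (1 + ε) ∧ -1 ≤ E y ∧ E y ≤ 0 := by
  obtain ⟨X₀, h⟩ := retE (min ε 1) (lt_min hε one_pos) (min_le_right _ _)
  refine ⟨max X₀ 1, fun X hX => ?_⟩
  obtain ⟨y, h1, h2, h3⟩ := h X ((le_max_left _ _).trans hX)
  refine ⟨y, h1, h2.trans ?_, h3⟩
  exact Real.rpow_le_rpow_of_exponent_le ((le_max_right _ _).trans hX)
    (by linarith [min_le_left ε 1])

end Pool.PWV
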