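import Pool.Agent.PWV.FinV

/-!
# PWV / Near: the neighbourhood of a point with E(y) in [-1, 0]

By `E_osc` (van der Corput, helper4, PWU/Osc) `|E(x) - E(y)| <= C y^(1/6) T^(-1/240)` for
`y <= x <= y + y/T`, `1 <= T <= y^(1/6)`.
-/

set_option autoImplicit false

open Complex Finset Filter Topology MeasureTheory

namespace Pool.PWV

open Pool.PWE Pool.PWU

theorem retNear : ∃ C : ℝ, ∀ ε : ℝ, 0 < ε → ∃ X₀ : ℝ, ∀ X : ℝ, X₀ ≤ X →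
    ∃ y : ℝ, X ≤ y ∧ y ≤ X ^ (1 + ε) ∧ -1 ≤ E y ∧ E y ≤ 0 ∧
      ∀ T x : ℝ, 1 ≤ T → T ≤ y ^ (1 / 6 : ℝ) → y ≤ x → x ≤ y + y / T →
        |E x| ≤ C * x ^ (1 / 6 : ℝ) * T ^ (-(1 / 240) : ℝ) := by
  obtain ⟨C, hC, hosc⟩ := E_osc
  refine ⟨C + 1, fun ε hε => ?_⟩
  obtain ⟨X₀, h⟩ := retAll ε hε
  refine ⟨max X₀ 1, fun X hX => ?_⟩
  obtain ⟨y, h1, h2, h3, h4⟩ := h X ((le_max_left _ _).trans hX)
  have hy1 : 1 ≤ y := ((le_max_right _ _).trans hX).trans h1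
  have hy0 : 0 < y := by linarith
  refine ⟨y, h1, h2, h3, h4, fun T x hT1 hT2 hx1 hx2 => ?_⟩
  have hT0 : 0 < T := by linarith
  have e1 := hosc y T (x - y) hy1 hT1 hT2 (by linarith) (by linarith)
  rw [add_sub_cancel] at e1
  have e2 : |E x| ≤ |E y| + |E x - E y| := by
    have := abs_add_le (E y) (E x - E y)
    rwa [add_sub_cancel] at this
  have e3 : |E y| ≤ 1 := abs_le.2 ⟨h3, by linarith⟩
  have e4 : 1 ≤ y ^ (1 / 6 : ℝ) * T ^ (-(1 / 240) : ℝ) := by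
    rw [Real.rpow_neg hT0.le, ← div_eq_mul_inv, one_le_div (by positivity)]
    calc T ^ (1 / 240 : ℝ) ≤ T ^ (1 : ℝ) :=
          Real.rpow_le_rpow_of_exponent_le hT1 (by norm_num)
      _ = T := Real.rpow_one T
      _ ≤ y ^ (1 / 6 : ℝ) := hT2
  have e5 : y ^ (1 / 6 : ℝ) ≤ x ^ (1 / 6 : ℝ) := Real.rpow_le_rpow hy0.le hx1 (by norm_num)
  calc |E x| ≤ |E y| + |E x - E y| := e2
    _ ≤ y ^ (1 / 6 : ℝ) * T ^ (-(1 / 240) : ℝ) + C * y ^ (1 / 6 : ℝ) * T ^ (-(1 / 240) : ℝ) :=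
        add_le_add (e3.trans e4) e1
    _ = (C + 1) * T ^ (-(1 / 240) : ℝ) * y ^ (1 / 6 : ℝ) := by ring
    _ ≤ (C + 1) * T ^ (-(1 / 240) : ℝ) * x ^ (1 / 6 : ℝ) :=
        mul_le_mul_of_nonneg_left e5 (by positivity)
    _ = (C + 1) * x ^ (1 / 6 : ℝ) * T ^ (-(1 / 240) : ℝ) := by ring

end Pool.PWV
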