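import Pool.Agent.PWV.Defs

/-!
# PWV / Pol: the poles

PROOF. `P_re`: `zf_one` (order zero of the denominator). `P_real`: `zf`. `P_fin`: the zeros of an entire function.
`hext`: as `zero_mean` in PWF/Crit with `quot_ext` on the complement of `Pset`, `K0 = dslope P 0 + 2 dslope P (1/2) - 3 dslope P (1/3)`.
-/

set_option autoImplicit false

open Complex Finset Filter Topology MeasureTheory

namespace Pool.PWV

open Pool.PWF Pool.OMG

private theorem D_diff : Differentiable ℂ (fun z : ℂ => riemannZeta₁ (6 * z)) := by fun_prop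

private theorem P_zero {z : ℂ} (hz : z ∈ Pset) : riemannZeta₁ (6 * z) = 0 := by
  by_contra h
  have h1 : analyticOrderAt (fun z : ℂ => riemannZeta₁ (6 * z)) z = 0 := by
    rw [(D_diff.analyticAt z).analyticOrderAt_eq_zero]
    exact h
  have h2 : analyticOrderAt Nn z < analyticOrderAt (fun z => riemannZeta₁ (6 * z)) z := hz
  rw [h1] at h2
  exact absurd h2 (not_lt.2 bot_le)

theorem P_re {z : ℂ} (hz : z ∈ Pset) : z.re < 1 / 6 := by
  by_contra h
  push Not at h
  exact zf_one (w := 6 * z) (by simp; linarith) (P_zero hz)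

theorem P_real {z : ℂ} (hz : z ∈ Pset) (h : z.im = 0) : z.re < 0 := by
  by_contra h1
  push Not at h1
  have h2 := P_re hz
  refine zf (w := 6 * z) ?_ (P_zero hz)
  have h3 : z = (z.re : ℂ) := by
    apply Complex.ext
    · simp
    · simp [h]
  have h4 : 6 * z - 12 = ((6 * z.re - 12 : ℝ) : ℂ) := by
    rw [h3]
    push_cast
    simp
  rw [h4, Complex.norm_real, Real.norm_eq_abs, abs_le]
  constructor <;> linarith

private theorem D_ne (z : ℂ) : ∀ᶠ w in 𝓝[≠] z, riemannZeta₁ (6 * w) ≠ 0 := by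
  rcases (D_diff.analyticAt z).eventually_eq_zero_or_eventually_ne_zero with h | h
  · exact absurd (analyticOrderAt_eq_top.2 h) (ord_fin z)
  · exact h

theorem P_fin {K : Set ℂ} (hK : IsCompact K) : (Pset ∩ K).Finite := by
  by_contra hinf
  obtain ⟨z, -, hz⟩ := Set.Infinite.exists_accPt_of_subset_isCompact hinf hK
    Set.inter_subset_right
  rw [accPt_iff_frequently] at hz
  have h1 := D_ne z
  rw [eventually_nhdsWithin_iff] at h1
  obtain ⟨w, hw1, hw2⟩ := (hz.and_eventually h1).exists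
  exact hw2 hw1.1 (P_zero hw1.2.1)

theorem P_closed : IsClosed Pset := by
  rw [← isOpen_compl_iff, isOpen_iff_mem_nhds]
  intro z hz
  have h1 := D_ne z
  rw [eventually_nhdsWithin_iff] at h1
  filter_upwards [h1] with w hw
  intro hw2
  by_cases h3 : w = z
  · exact hz (h3 ▸ hw2)
  · exact hw h3 (P_zero hw2)

theorem hext : ∃ K₀ : ℂ → ℂ, DifferentiableOn ℂ K₀ Psetᶜ ∧
    (∀ z : ℂ, 1 / 2 < z.re → Hf z = K₀ z + (-1 / 2) / (z - 0)) ∧
    ∀ p ∈ Pset, ∃ (m : ℕ) (g : ℂ → ℂ), 1 ≤ m ∧ AnalyticAt ℂ g p ∧ g p ≠ 0 ∧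
      ∀ᶠ z in 𝓝[≠] p, K₀ z + (-1 / 2) / (z - 0) = g z / (z - p) ^ m := by
  obtain ⟨P, hPd, hP⟩ := quot_ext (N := Nn) (D := fun z => riemannZeta₁ (6 * z)) (U := Psetᶜ)
    Nn_diff D_diff ord_fin (fun z hz => not_lt.mp hz)
  have hUo : IsOpen Psetᶜ := P_closed.isOpen_compl
  have hPhi : ∀ z ∈ Psetᶜ, riemannZeta₁ (6 * z) ≠ 0 → P z = Phi z := fun z hz hz2 => hP z hz hz2
  have m0 : (0 : ℂ) ∈ Psetᶜ := fun h => by
    have := P_real h (by simp)
    simp at this
  have mre : ∀ z : ℂ, 1 / 6 ≤ z.re → z ∈ Psetᶜ := fun z hz h => by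
    have := P_re h
    linarith
  have m2 : (1 / 2 : ℂ) ∈ Psetᶜ := mre _ (by norm_num)
  have m3 : (1 / 3 : ℂ) ∈ Psetᶜ := mre _ (by norm_num)
  have p0 : P 0 = Phi 0 := hPhi _ m0 (zf (w := 6 * 0) (by norm_num))
  have p2 : P (1 / 2) = Phi (1 / 2) := hPhi _ m2 (zf_one (by norm_num))
  have p3 : P (1 / 3) = Phi (1 / 3) := hPhi _ m3 (zf_one (by norm_num))
  refine ⟨fun z => dslope P 0 z + 2 * dslope P (1 / 2) z - 3 * dslope P (1 / 3) z, ?_, ?_, ?_⟩
  · refine DifferentiableOn.sub (DifferentiableOn.add ?_ ?_) ?_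
    · exact (Complex.differentiableOn_dslope (hUo.mem_nhds m0)).mpr hPd
    · exact ((Complex.differentiableOn_dslope (hUo.mem_nhds m2)).mpr hPd).const_mul 2
    · exact ((Complex.differentiableOn_dslope (hUo.mem_nhds m3)).mpr hPd).const_mul 3
  · intro z hz'
    have hne : ∀ c : ℂ, c.re ≤ 1 / 2 → z - c ≠ 0 := by
      intro c hc h
      have : z = c := sub_eq_zero.mp h
      rw [this] at hz'
      linarith
    have n0 := hne 0 (by norm_num)
    have n2 := hne (1 / 2) (by norm_num)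
    have n3 := hne (1 / 3) (by norm_num)
    have pz : P z = Phi z := hPhi z (mre z (by linarith)) (zf_one (by simp; linarith))
    rw [hf_eq hz']
    simp only
    unfold Kf
    rw [dslope_of_ne _ (sub_ne_zero.mp n0), dslope_of_ne _ (sub_ne_zero.mp n2),
      dslope_of_ne _ (sub_ne_zero.mp n3), dslope_of_ne _ (sub_ne_zero.mp n0),
      dslope_of_ne _ (sub_ne_zero.mp n2),
      dslope_of_ne _ (sub_ne_zero.mp n3), slope_def_field, slope_def_field, slope_def_field,
      slope_def_field, slope_def_field, slope_def_field, p0, p2, p3, pz]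
    ring
  · intro p hp
    have hlt : analyticOrderAt Nn p < analyticOrderAt (fun z => riemannZeta₁ (6 * z)) p := hp
    obtain ⟨b, hb⟩ := ENat.ne_top_iff_exists.mp (ord_fin p)
    obtain ⟨a, ha⟩ := ENat.ne_top_iff_exists.mp (ne_top_of_lt hlt)
    rw [← ha, ← hb] at hlt
    have hab : a < b := by exact_mod_cast hlt
    obtain ⟨m, hm⟩ : ∃ m, b = a + m := ⟨b - a, by omega⟩
    have hm1 : 1 ≤ m := by omega
    have hDn := hb.symm
    rw [(D_diff.analyticAt p).analyticOrderAt_eq_natCast] at hDn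
    obtain ⟨d, hda, hd0, hd⟩ := hDn
    have hNn := ha.symm
    rw [(Nn_diff.analyticAt p).analyticOrderAt_eq_natCast] at hNn
    obtain ⟨n, hna, hn0, hn⟩ := hNn
    have q0 : p ≠ 0 := fun h => m0 (h ▸ hp)
    have q2 : p ≠ 1 / 2 := fun h => m2 (h ▸ hp)
    have q3 : p ≠ 1 / 3 := fun h => m3 (h ▸ hp)
    have e0 : p - 0 ≠ 0 := sub_ne_zero.2 q0
    have e2 : p - 1 / 2 ≠ 0 := sub_ne_zero.2 q2
    have e3 : p - 1 / 3 ≠ 0 := sub_ne_zero.2 q3
    refine ⟨m, fun z => n z / d z * (1 / (z - 0) + 2 / (z - 1 / 2) - 3 / (z - 1 / 3)) +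
      (z - p) ^ m * (-2 * P (1 / 2) / (z - 1 / 2) + 3 * P (1 / 3) / (z - 1 / 3)), hm1, ?_, ?_, ?_⟩
    · have hs : ∀ c : ℂ, AnalyticAt ℂ (fun z : ℂ => z - c) p := fun c => by fun_prop
      have hc : ∀ c : ℂ, AnalyticAt ℂ (fun _ : ℂ => c) p := fun c => analyticAt_const
      exact ((hna.div hda hd0).mul ((((hc 1).div (hs 0) e0).add ((hc 2).div (hs _) e2)).sub
        ((hc 3).div (hs _) e3))).add (((hs p).pow m).mul
        (((hc (-2 * P (1 / 2))).div (hs _) e2).add ((hc (3 * P (1 / 3))).div (hs _) e3)))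
    · simp only
      rw [sub_self, zero_pow (by omega), zero_mul, add_zero]
      refine mul_ne_zero (div_ne_zero hn0 hd0) ?_
      have e2' : 2 * p - 1 ≠ 0 := by
        intro h; apply e2; linear_combination h / 2
      have e3' : 3 * p - 1 ≠ 0 := by
        intro h; apply e3; linear_combination h / 3
      have : 1 / (p - 0) + 2 / (p - 1 / 2) - 3 / (p - 1 / 3) =
          1 / (p * (2 * p - 1) * (3 * p - 1)) := by
        rw [show p - 1 / 2 = (2 * p - 1) / 2 by ring, show p - 1 / 3 = (3 * p - 1) / 3 by ring,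
          sub_zero]
        obtain ⟨u, hu⟩ : ∃ u, u = 2 * p - 1 := ⟨_, rfl⟩
        obtain ⟨v, hv⟩ : ∃ v, v = 3 * p - 1 := ⟨_, rfl⟩
        rw [← hu] at e2' ⊢
        rw [← hv] at e3' ⊢
        field_simp
        rw [hu, hv]
        ring
      rw [this]
      exact one_div_ne_zero (mul_ne_zero (mul_ne_zero q0 e2') e3')
    · have hd' := hd.filter_mono (nhdsWithin_le_nhds (s := {p}ᶜ))
      have hn' := hn.filter_mono (nhdsWithin_le_nhds (s := {p}ᶜ))
      have f0 := (isOpen_ne.mem_nhds q0 : {z : ℂ | z ≠ 0} ∈ 𝓝 p)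
      have f2 := (isOpen_ne.mem_nhds q2 : {z : ℂ | z ≠ 1 / 2} ∈ 𝓝 p)
      have f3 := (isOpen_ne.mem_nhds q3 : {z : ℂ | z ≠ 1 / 3} ∈ 𝓝 p)
      filter_upwards [hd', hn', D_ne p, self_mem_nhdsWithin, mem_nhdsWithin_of_mem_nhds f0,
        mem_nhdsWithin_of_mem_nhds f2, mem_nhdsWithin_of_mem_nhds f3] with z h1 h2 h3 h4 g0 g2 g3
      have hz : z ∈ Psetᶜ := fun h => h3 (P_zero h)
      have hPz := hP z hz h3
      have hzp : z - p ≠ 0 := sub_ne_zero.mpr h4
      have g0' : z ≠ 0 := g0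
      have g2' : z ≠ 1 / 2 := g2
      have g3' : z ≠ 1 / 3 := g3
      have hPz2 : P z = n z / d z / (z - p) ^ m := by
        rw [hPz]
        rw [h2, h1, hm, smul_eq_mul, smul_eq_mul, pow_add, mul_assoc,
          mul_div_mul_left _ _ (pow_ne_zero a hzp), div_div, mul_comm (d z)]
      rw [dslope_of_ne _ g0', dslope_of_ne _ g2', dslope_of_ne _ g3', slope_def_field,
        slope_def_field, slope_def_field, p0, phi_zero, hPz2]
      have k0 : z - 0 ≠ 0 := sub_ne_zero.2 g0'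
      have k2 : z - 1 / 2 ≠ 0 := sub_ne_zero.2 g2'
      have k3 : z - 1 / 3 ≠ 0 := sub_ne_zero.2 g3'
      have kp : (z - p) ^ m ≠ 0 := pow_ne_zero m hzp
      rw [add_div, mul_div_cancel_left₀ _ kp]
      ring

end Pool.PWV
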